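import Pool.Agent.Y299.Forti.Cases

/-! # The sign-reversing case -/

namespace Pool.Agent.Y299.Forti

open Set

section

variable {f : ℝ → ℝ} (hf : Continuous f) (he : ∀ x, f (x + f x) = f x + f (f x))
  (hs : ∀ x, x ≠ 0 → x * f x < 0)

include he in
theorem C1 {w : ℝ} (hw : f w = -w) : f (-w) = w := by
  have h := he w
  rw [hw] at h
  rw [show w + -w = (0 : ℝ) by ring, f_zero he] at h
  linarith

include he hs in
theorem C2 {x w : ℝ} (hx : f x = w) (hw : f w = -w) : x = -w := by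
  have h := he x
  rw [hx, hw] at h
  have h0 : f (x + w) = 0 := by rw [h]; ring
  by_contra hne
  have hxw : x + w ≠ 0 := fun h => hne (by linarith)
  exact II_f_ne hs hxw h0

include hs in
theorem mir_sign (x : ℝ) (hx : x ≠ 0) : x * mir f x < 0 := by
  have h := hs (-x) (neg_ne_zero.2 hx)
  unfold mir
  linarith

/-- A gap: consecutive zeros `w₁ < w₂` of `x + f x`. -/
structure Gap (f : ℝ → ℝ) (w₁ w₂ : ℝ) : Prop where
  h0 : 0 ≤ w₁
  h12 : w₁ < w₂
  e1 : f w₁ = -w₁
  e2 : f w₂ = -w₂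
  ne : ∀ x ∈ Ioo w₁ w₂, x + f x ≠ 0

include he in
theorem Gap.mirror {w₁ w₂ : ℝ} (G : Gap f w₁ w₂) : Gap (Forti.mir f) w₁ w₂ where
  h0 := G.h0
  h12 := G.h12
  e1 := by unfold Forti.mir; rw [C1 he G.e1]
  e2 := by unfold Forti.mir; rw [C1 he G.e2]
  ne := by
    intro x hx h
    unfold Forti.mir at h
    have h1 : f (-x) = -(-x) := by linarith
    have h2 := C1 he h1
    rw [neg_neg] at h2
    exact G.ne x hx (by linarith)

include hf he hs in
theorem Gap.maps {w₁ w₂ : ℝ} (G : Gap f w₁ w₂) {t : ℝ} (ht : t ∈ Ioo w₁ w₂) :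
    -f t ∈ Ioo w₁ w₂ := by
  have hnc : Continuous fun x => -f x := hf.neg
  constructor
  · by_contra hc
    push Not at hc
    have hmem : w₁ ∈ Icc (-f t) (-f w₂) := ⟨hc, by rw [G.e2]; linarith [G.h12]⟩
    obtain ⟨t', ht', h⟩ := intermediate_value_Icc ht.2.le (hnc.continuousOn (s := Icc t w₂)) hmem
    simp only at h
    have h1 : f t' = -w₁ := by linarith
    have h2 : f (-w₁) = -(-w₁) := by rw [C1 he G.e1]; ring
    have h3 := C2 he hs h1 h2
    rw [neg_neg] at h3
    linarith [ht'.1, ht.1]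
  · by_contra hc
    push Not at hc
    have hmem : w₂ ∈ Icc (-f w₁) (-f t) := ⟨by rw [G.e1]; linarith [G.h12], hc⟩
    obtain ⟨t', ht', h⟩ := intermediate_value_Icc ht.1.le (hnc.continuousOn (s := Icc w₁ t)) hmem
    simp only at h
    have h1 : f t' = -w₂ := by linarith
    have h2 : f (-w₂) = -(-w₂) := by rw [C1 he G.e2]; ring
    have h3 := C2 he hs h1 h2
    rw [neg_neg] at h3
    linarith [ht'.2, ht.2]

include he in
/-- transport of coincidences -/
theorem coin {t d : ℝ} (h : t + f t = (t + d) + f (t + d)) :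
    -f (t + d) = -f t + d ∧ mir f (-f t) + (-f t) = mir f (-f t + d) + (-f t + d) := by
  have h1 : f (t + d) = f t - d := by linarith
  refine ⟨by linarith, ?_⟩
  unfold mir
  have h2 := he t
  have h3 := he (t + d)
  rw [← h, h2, h1] at h3
  have e1 : - -f t = f t := by ring
  have e2 : -(-f t + d) = f t - d := by ring
  rw [e1, e2]
  linarith

include hf he hs in
theorem Gap.sign {w₁ w₂ : ℝ} (G : Gap f w₁ w₂) :
    (∀ t ∈ Ioo w₁ w₂, 0 < t + f t ∧ 0 < t + mir f t) ∨
      (∀ t ∈ Ioo w₁ w₂, t + f t < 0 ∧ t + mir f t < 0) := by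
  have hgc : Continuous fun x => x + f x := by fun_prop
  have hmc : Continuous fun x => x + mir f x := by
    have := mir_cont hf
    fun_prop
  have hm : (w₁ + w₂) / 2 ∈ Ioo w₁ w₂ := ⟨by linarith [G.h12], by linarith [G.h12]⟩
  set m := (w₁ + w₂) / 2 with hmdef
  have hm0 : 0 < m := lt_of_le_of_lt G.h0 hm.1
  have hu := G.maps hf he hs hm
  -- g(-u) = f (g m)
  have h1 : -f m + mir f (-f m) = -f (m + f m) := by
    unfold mir
    rw [neg_neg, he m]
    ring
  rcases lt_or_gt_of_ne (G.ne m hm) with h | h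
  · right
    have h2 : 0 < f (m + f m) := by
      by_contra hc
      push Not at hc
      have := hs _ h.ne
      nlinarith
    have h3 : -f m + mir f (-f m) < 0 := by rw [h1]; linarith
    intro t ht
    exact ⟨const_sign_neg hgc ordConnected_Ioo G.ne hm ht h,
      const_sign_neg hmc ordConnected_Ioo (G.mirror he).ne hu ht h3⟩
  · left
    have h2 : f (m + f m) < 0 := by
      by_contra hc
      push Not at hc
      have := hs _ h.ne'
      nlinarith
    have h3 : 0 < -f m + mir f (-f m) := by rw [h1]; linarith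
    intro t ht
    exact ⟨const_sign hgc ordConnected_Ioo G.ne hm ht h,
      const_sign hmc ordConnected_Ioo (G.mirror he).ne hu ht h3⟩

/-- coincidence set -/
def Coin (f : ℝ → ℝ) (w₁ w₂ d : ℝ) : Set ℝ :=
  Icc w₁ (w₂ - d) ∩ {t | t + f t = (t + d) + f (t + d)}

theorem Coin.isCompact (hf : Continuous f) (w₁ w₂ d : ℝ) : IsCompact (Coin f w₁ w₂ d) :=
  isCompact_Icc.inter_right (isClosed_eq (by fun_prop) (by fun_prop))

theorem Gap.coin_mem {w₁ w₂ : ℝ} (G : Gap f w₁ w₂) {d t : ℝ} (hd0 : 0 < d) (hd : d < w₂ - w₁)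
    (ht : t ∈ Coin f w₁ w₂ d) : t ∈ Ioo w₁ w₂ ∧ t + d ∈ Ioo w₁ w₂ := by
  obtain ⟨⟨h1, h2⟩, h3⟩ := ht
  simp only [mem_ofPred_eq] at h3
  have h4 : t ≠ w₁ := by
    rintro rfl
    rw [G.e1] at h3
    exact G.ne (t + d) ⟨by linarith, by linarith⟩ (by linarith)
  have h5 : t ≠ w₂ - d := by
    rintro rfl
    have e : w₂ - d + d = w₂ := by ring
    rw [e, G.e2] at h3
    exact G.ne (w₂ - d) ⟨by linarith, by linarith⟩ (by linarith)
  have h6 : w₁ < t := lt_of_le_of_ne h1 (Ne.symm h4)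
  have h7 : t < w₂ - d := lt_of_le_of_ne h2 h5
  exact ⟨⟨h6, by linarith⟩, ⟨by linarith, by linarith⟩⟩

include hf he hs in
theorem Gap.coin_map {w₁ w₂ : ℝ} (G : Gap f w₁ w₂) {d t : ℝ} (hd0 : 0 < d) (hd : d < w₂ - w₁)
    (ht : t ∈ Coin f w₁ w₂ d) : -f t ∈ Coin (Forti.mir f) w₁ w₂ d := by
  obtain ⟨h1, h2⟩ := G.coin_mem hd0 hd ht
  have h3 := ht.2
  simp only [mem_ofPred_eq] at h3
  obtain ⟨h4, h5⟩ := coin he h3
  have h6 := G.maps hf he hs h1
  have h7 := G.maps hf he hs h2
  rw [h4] at h7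
  refine ⟨⟨h6.1.le, by linarith [h7.2]⟩, ?_⟩
  simp only [mem_ofPred_eq]
  linarith

theorem mir_mir (f : ℝ → ℝ) : mir (mir f) = f := by
  funext x; unfold mir; simp

include hf he hs in
/-- There is no gap. -/
theorem no_gap {w₁ w₂ : ℝ} (G : Gap f w₁ w₂) : False := by
  have hgc : Continuous fun x => x + f x := by fun_prop
  have hm : (w₁ + w₂) / 2 ∈ Ioo w₁ w₂ := ⟨by linarith [G.h12], by linarith [G.h12]⟩
  set m := (w₁ + w₂) / 2 with hmdef
  set c := (m + f m) / 2 with hc
  have hgm := G.ne m hm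
  have hc0 : c ≠ 0 := by
    intro h; apply hgm; linarith
  have hgmc : m + f m = 2 * c := by rw [hc]; ring
  obtain ⟨t₁, ht₁, hg₁⟩ : ∃ t₁ ∈ Ioo w₁ m, t₁ + f t₁ = c := by
    have hmem : c ∈ uIcc (w₁ + f w₁) (m + f m) := by
      rw [G.e1, hgmc, mem_uIcc]
      rcases lt_or_gt_of_ne hc0 with h | h
      · right; constructor <;> linarith
      · left; constructor <;> linarith
    obtain ⟨t, ht, h⟩ := intermediate_value_uIcc (hgc.continuousOn (s := uIcc w₁ m)) hmem
    simp only at h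
    rw [uIcc_of_le hm.1.le] at ht
    refine ⟨t, ⟨lt_of_le_of_ne ht.1 ?_, lt_of_le_of_ne ht.2 ?_⟩, h⟩
    · rintro rfl; rw [G.e1] at h; exact hc0 (by linarith)
    · rintro rfl; exact hc0 (by linarith)
  obtain ⟨t₂, ht₂, hg₂⟩ : ∃ t₂ ∈ Ioo m w₂, t₂ + f t₂ = c := by
    have hmem : c ∈ uIcc (m + f m) (w₂ + f w₂) := by
      rw [G.e2, hgmc, mem_uIcc]
      rcases lt_or_gt_of_ne hc0 with h | h
      · left; constructor <;> linarith
      · right; constructor <;> linarith
    obtain ⟨t, ht, h⟩ := intermediate_value_uIcc (hgc.continuousOn (s := uIcc m w₂)) hmem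
    simp only at h
    rw [uIcc_of_le hm.2.le] at ht
    refine ⟨t, ⟨lt_of_le_of_ne ht.1 ?_, lt_of_le_of_ne ht.2 ?_⟩, h⟩
    · rintro rfl; exact hc0 (by linarith)
    · rintro rfl; rw [G.e2] at h; exact hc0 (by linarith)
  set d := t₂ - t₁ with hd
  have hd0 : 0 < d := by rw [hd]; linarith [ht₁.2, ht₂.1]
  have hdlt : d < w₂ - w₁ := by rw [hd]; linarith [ht₁.1, ht₂.2]
  have ht₁Q : t₁ ∈ Coin f w₁ w₂ d := by
    refine ⟨⟨ht₁.1.le, by rw [hd]; linarith [ht₂.2]⟩, ?_⟩
    simp only [mem_ofPred_eq]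
    have e : t₁ + d = t₂ := by rw [hd]; ring
    rw [e, hg₁, hg₂]
  have GM := G.mirror he
  have hmf := mir_cont hf
  have hme : ∀ x, mir f (x + mir f x) = mir f x + mir f (mir f x) := mir_eq he
  have hms : ∀ x, x ≠ 0 → x * mir f x < 0 := mir_sign hs
  have hUc : IsCompact (Coin f w₁ w₂ d ∪ Coin (mir f) w₁ w₂ d) :=
    (Coin.isCompact hf _ _ _).union (Coin.isCompact hmf _ _ _)
  have hUne : (Coin f w₁ w₂ d ∪ Coin (mir f) w₁ w₂ d).Nonempty := ⟨t₁, Or.inl ht₁Q⟩
  rcases G.sign hf he hs with h | h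
  · obtain ⟨t, ht, hmin⟩ := hUc.exists_isLeast hUne
    rcases ht with ht | ht
    · have h1 := hmin (Or.inr (G.coin_map hf he hs hd0 hdlt ht))
      have h2 := (h t (G.coin_mem hd0 hdlt ht).1).1
      linarith
    · have h3 := GM.coin_map hmf hme hms hd0 hdlt ht
      rw [mir_mir] at h3
      have h1 := hmin (Or.inl h3)
      have h2 := (h t (GM.coin_mem hd0 hdlt ht).1).2
      linarith
  · obtain ⟨t, ht, hmax⟩ := hUc.exists_isGreatest hUne
    rcases ht with ht | ht
    · have h1 := hmax (Or.inr (G.coin_map hf he hs hd0 hdlt ht))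
      have h2 := (h t (G.coin_mem hd0 hdlt ht).1).1
      linarith
    · have h3 := GM.coin_map hmf hme hms hd0 hdlt ht
      rw [mir_mir] at h3
      have h1 := hmax (Or.inl h3)
      have h2 := (h t (GM.coin_mem hd0 hdlt ht).1).2
      linarith

include hf he hs in
/-- **Lemma G.** -/
theorem lemmaG {w : ℝ} (hw : f w = -w) {x : ℝ} (hx0 : 0 ≤ x) (hxw : x ≤ w) :
    f x = -x := by
  by_contra hne
  have hgc : Continuous fun x => x + f x := by fun_prop
  have hgx : x + f x ≠ 0 := fun h => hne (by linarith)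
  have h0 := f_zero he
  have hK1 : IsCompact (Icc 0 x ∩ {t | t + f t = 0}) :=
    isCompact_Icc.inter_right (isClosed_eq hgc continuous_const)
  have hK2 : IsCompact (Icc x w ∩ {t | t + f t = 0}) :=
    isCompact_Icc.inter_right (isClosed_eq hgc continuous_const)
  obtain ⟨w₁, ⟨⟨h1, h2⟩, h3⟩, hmax⟩ := hK1.exists_isGreatest
    ⟨0, ⟨le_rfl, hx0⟩, by simp only [mem_ofPred_eq]; rw [h0, add_zero]⟩
  obtain ⟨w₂, ⟨⟨h4, h5⟩, h6⟩, hmin⟩ := hK2.exists_isLeast
    ⟨w, ⟨hxw, le_rfl⟩, by simp only [mem_ofPred_eq]; rw [hw]; ring⟩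
  simp only [mem_ofPred_eq] at h3 h6
  have h7 : w₁ < x := lt_of_le_of_ne h2 (by rintro rfl; exact hgx h3)
  have h8 : x < w₂ := lt_of_le_of_ne h4 (by rintro rfl; exact hgx h6)
  refine no_gap hf he hs (w₁ := w₁) (w₂ := w₂) ⟨h1, h7.trans h8, by linarith, by linarith, ?_⟩
  intro t ht h
  rcases le_total t x with htx | htx
  · have := hmax ⟨⟨by linarith [ht.1], htx⟩, h⟩
    linarith [ht.1]
  · have := hmin ⟨⟨htx, by linarith [ht.2]⟩, h⟩
    linarith [ht.2]

include hf he hs in
/-- **Lemma G2.** -/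
theorem lemmaG2 {w : ℝ} (hw0 : 0 < w) (hw : f w = -w) : ∀ x, f x = -x := by
  have h0 := f_zero he
  have hgc : Continuous fun x => x + f x := by fun_prop
  suffices H : ∀ y, 0 < y → f y = -y by
    intro x
    rcases lt_trichotomy x 0 with hx | hx | hx
    · have h1 := C1 he (H (-x) (by linarith))
      rw [neg_neg] at h1
      exact h1
    · rw [hx, h0, neg_zero]
    · exact H x hx
  by_contra hcon
  push Not at hcon
  obtain ⟨y, hy0, hfy⟩ := hcon
  have hwy : w < y := by
    by_contra hc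
    push Not at hc
    exact hfy (lemmaG hf he hs hw hy0.le hc)
  have hK : IsCompact (Icc w y ∩ {t | t + f t = 0}) :=
    isCompact_Icc.inter_right (isClosed_eq hgc continuous_const)
  obtain ⟨w₁, ⟨⟨h1, h2⟩, h3⟩, hmax⟩ := hK.exists_isGreatest
    ⟨w, ⟨le_rfl, hwy.le⟩, by simp only [mem_ofPred_eq]; rw [hw]; ring⟩
  simp only [mem_ofPred_eq] at h3
  have hw₁ : f w₁ = -w₁ := by linarith
  have hw₁0 : 0 < w₁ := by linarith
  have hin : ∀ z, |z| ≤ w₁ → f z = -z := by
    intro z hz
    rcases le_total 0 z with h | h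
    · rw [abs_of_nonneg h] at hz
      exact lemmaG hf he hs hw₁ h hz
    · rw [abs_of_nonpos h] at hz
      have h4 := C1 he (lemmaG hf he hs hw₁ (by linarith) hz)
      rw [neg_neg] at h4
      exact h4
  have hw₁y : w₁ < y := lt_of_le_of_ne h2 (by rintro rfl; exact hfy hw₁)
  have hout : ∀ x, w₁ < x → x + f x ≠ 0 := by
    intro x hx h
    rcases le_total x y with hxy | hxy
    · have := hmax ⟨⟨by linarith, hxy⟩, h⟩
      linarith
    · exact hfy (lemmaG hf he hs (w := x) (by linarith) hy0.le hxy)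
  have claimA : ∀ x z, x + f x = z → |z| ≤ w₁ → (x - 2 * z) + f (x - 2 * z) = z := by
    intro x z hz hzw
    have e1 := he x
    rw [hz, hin z hzw] at e1
    have e2 : f x = z - x := by linarith
    have e3 : f (f x) = x - 2 * z := by linarith
    have e4 := he (f x)
    have e5 : f x + f (f x) = -z := by rw [e3, e2]; ring
    rw [e5, hin (-z) (by rwa [abs_neg]), e3] at e4
    linarith
  have claimB : ∀ x z, w₁ < x → x + f x = z → 0 < z → z ≤ w₁ → False := by
    intro x z hx hz hz0 hzw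
    have hzabs : |z| ≤ w₁ := by rwa [abs_of_pos hz0]
    have key : ∀ n : ℕ, w₁ < x - 2 * n * z ∧
        (x - 2 * n * z) + f (x - 2 * n * z) = z := by
      intro n
      induction n with
      | zero => simpa using ⟨hx, hz⟩
      | succ n ih =>
        have h4 := claimA _ z ih.2 hzabs
        have e : x - 2 * ((n + 1 : ℕ) : ℝ) * z = x - 2 * n * z - 2 * z := by push_cast; ring
        rw [e]
        refine ⟨?_, h4⟩
        by_contra hc
        push Not at hc
        have h5 : |x - 2 * n * z - 2 * z| ≤ w₁ := by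
          rw [abs_le]; exact ⟨by linarith [ih.1], hc⟩
        rw [hin _ h5] at h4
        linarith
    obtain ⟨n, hn⟩ := exists_nat_gt (x / z)
    rw [div_lt_iff₀ hz0] at hn
    have h6 := (key n).1
    nlinarith
  have claimC : ∀ x z, x + f x = z → |z| ≤ w₁ → ∀ n : ℕ,
      (x - 2 * n * z) + f (x - 2 * n * z) = z := by
    intro x z hz hzw n
    induction n with
    | zero => simpa using hz
    | succ n ih =>
      have h4 := claimA _ z ih hzw
      have e : x - 2 * ((n + 1 : ℕ) : ℝ) * z = x - 2 * n * z - 2 * z := by push_cast; ring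
      rw [e]
      exact h4
  have hgy : 0 < |y + f y| := abs_pos.2 (hout y hw₁y)
  obtain ⟨η, hη, hηg⟩ := cont_at hgc y (ε := |y + f y| / 2) (by linarith)
  obtain ⟨η', hη', hη'g⟩ := cont_at hgc w₁ (ε := min w₁ (min (η / 2) (|y + f y| / 2)))
    (by positivity)
  simp only [h3, sub_zero] at hη'g
  set x := w₁ + min η' (y - w₁) / 2 with hx
  have hmin0 : 0 < min η' (y - w₁) := lt_min hη' (by linarith)
  have hm1 : min η' (y - w₁) ≤ η' := min_le_left _ _
  have hm2 : min η' (y - w₁) ≤ y - w₁ := min_le_right _ _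
  have hxw : w₁ < x := by rw [hx]; linarith
  have hxy : x < y := by rw [hx]; linarith
  have hgx := hη'g x (by rw [abs_lt]; constructor <;> linarith)
  set z := x + f x with hz
  have hz0 : z ≠ 0 := hout x hxw
  have j1 : |z| < w₁ := hgx.trans_le (min_le_left _ _)
  have j2 : |z| < η / 2 := hgx.trans_le ((min_le_right _ _).trans (min_le_left _ _))
  have j3 : |z| < |y + f y| / 2 := hgx.trans_le ((min_le_right _ _).trans (min_le_right _ _))
  rcases lt_or_gt_of_ne hz0 with hzneg | hzpos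
  · rw [abs_of_neg hzneg] at j1 j2 j3
    set u := -z with hu
    have hu0 : 0 < u := by linarith
    have hq : 0 ≤ (y - x) / (2 * u) := div_nonneg (by linarith) (by linarith)
    have hk1 := Nat.floor_le hq
    have hk2 := Nat.lt_floor_add_one ((y - x) / (2 * u))
    set k := ⌊(y - x) / (2 * u)⌋₊ with hk
    rw [le_div_iff₀ (by linarith)] at hk1
    rw [div_lt_iff₀ (by linarith)] at hk2
    have h7 := claimC x z hz.symm (by rw [abs_of_neg hzneg]; linarith) k
    have h8 := hηg (x - 2 * k * z) (by rw [abs_lt]; constructor <;> nlinarith)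
    simp only [h7] at h8
    have h9 := abs_sub_abs_le_abs_sub (y + f y) z
    rw [abs_sub_comm (y + f y) z, abs_of_neg hzneg] at h9
    linarith
  · rw [abs_of_pos hzpos] at j1
    exact claimB x z hxw hz.symm hzpos j1.le

include hf he hs in
/-- **Case C.** -/
theorem caseC : ∃ c : ℝ, ∀ x, f x = c * x := by
  by_cases hW : ∃ w, 0 < w ∧ f w = -w
  · obtain ⟨w, h1, h2⟩ := hW
    exact ⟨-1, fun x => by rw [lemmaG2 hf he hs h1 h2 x]; ring⟩
  push Not at hW
  have hgc : Continuous fun x => x + f x := by fun_prop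
  have hp : ∀ x ∈ Ioi (0 : ℝ), x + f x ≠ 0 := fun x hx h => hW x hx (by linarith)
  have hn : ∀ x ∈ Iio (0 : ℝ), x + f x ≠ 0 := by
    intro x hx h
    have h1 : f x = -x := by linarith
    exact hW (-x) (neg_pos.2 hx) (by rw [C1 he h1]; ring)
  have h1mem : (1 : ℝ) ∈ Ioi (0 : ℝ) := by simp
  have hf1 : f 1 < 0 := by have := hs 1 one_ne_zero; linarith
  have hf1mem : f 1 ∈ Iio (0 : ℝ) := hf1
  have e1 : f 1 + f (f 1) = f (1 + f 1) := (he 1).symm
  rcases lt_or_gt_of_ne (hp 1 h1mem) with h | h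
  · have h2 : 0 < f (1 + f 1) := by
      by_contra hc
      push Not at hc
      have := hs _ h.ne
      nlinarith
    refine typeIII hf he fun x hx => ?_
    rcases lt_or_gt_of_ne hx with hx0 | hx0
    · have := const_sign hgc ordConnected_Iio hn hf1mem hx0 (by rw [e1]; exact h2)
      exact mul_neg_of_neg_of_pos hx0 this
    · have := const_sign_neg hgc ordConnected_Ioi hp h1mem hx0 h
      exact mul_neg_of_pos_of_neg hx0 this
  · have h2 : f (1 + f 1) < 0 := by
      by_contra hc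
      push Not at hc
      have := hs _ h.ne'
      nlinarith
    refine typeII hf he hs fun x hx => ?_
    rcases lt_or_gt_of_ne hx with hx0 | hx0
    · have := const_sign_neg hgc ordConnected_Iio hn hf1mem hx0 (by rw [e1]; exact h2)
      exact mul_pos_of_neg_of_neg hx0 this
    · have := const_sign hgc ordConnected_Ioi hp h1mem hx0 h
      exact mul_pos hx0 this

end

end Pool.Agent.Y299.Forti
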