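import Pool.Agent.Y299.Forti.TypeII

/-! # Local sign analysis -/

namespace Pool.Agent.Y299.Forti

open Set

/-- Constant sign on an order-connected set. -/
theorem const_sign {h : ℝ → ℝ} (hh : Continuous h) {S : Set ℝ} (hS : S.OrdConnected)
    (hne : ∀ x ∈ S, h x ≠ 0) {x y : ℝ} (hx : x ∈ S) (hy : y ∈ S) (hpos : 0 < h x) : 0 < h y := by
  by_contra hcon
  push Not at hcon
  have h0 : (0 : ℝ) ∈ uIcc (h x) (h y) := by
    rw [mem_uIcc]; right; exact ⟨hcon, hpos.le⟩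
  obtain ⟨z, hz, hz0⟩ := intermediate_value_uIcc (hh.continuousOn (s := uIcc x y)) h0
  exact hne z (hS.uIcc_subset hx hy hz) hz0

theorem const_sign_neg {h : ℝ → ℝ} (hh : Continuous h) {S : Set ℝ} (hS : S.OrdConnected)
    (hne : ∀ x ∈ S, h x ≠ 0) {x y : ℝ} (hx : x ∈ S) (hy : y ∈ S) (hneg : h x < 0) : h y < 0 := by
  have := const_sign (h := fun x => -h x) hh.neg hS (fun x hx => neg_ne_zero.2 (hne x hx)) hx hy
    (by linarith)
  linarith

theorem cont_at {h : ℝ → ℝ} (hh : Continuous h) (p : ℝ) {ε : ℝ} (hε : 0 < ε) :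
    ∃ η, 0 < η ∧ ∀ x, |x - p| < η → |h x - h p| < ε := by
  obtain ⟨η, hη, H⟩ := Metric.continuous_iff.1 hh p ε hε
  exact ⟨η, hη, fun x hx => H x hx⟩

variable {f : ℝ → ℝ} (hf : Continuous f) (he : ∀ x, f (x + f x) = f x + f (f x))

/-- The mirrored function. -/
def mir (f : ℝ → ℝ) : ℝ → ℝ := fun x => -f (-x)

include hf in
theorem mir_cont : Continuous (mir f) := by
  unfold mir; fun_prop

include he in
theorem mir_eq (x : ℝ) : mir f (x + mir f x) = mir f x + mir f (mir f x) := by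
  unfold mir
  have h := he (-x)
  have e : -(x + -f (-x)) = -x + f (-x) := by ring
  rw [e, h, neg_neg]
  ring

/-- Zeros accumulate at `0` from the right. -/
def Zacc (f : ℝ → ℝ) : Prop := ∀ δ : ℝ, 0 < δ → ∃ ξ, 0 < ξ ∧ ξ < δ ∧ f ξ = 0

include hf in
theorem trichotomy : Zacc f ∨ (∃ δ, 0 < δ ∧ ∀ x, 0 < x → x < δ → 0 < f x) ∨
    (∃ δ, 0 < δ ∧ ∀ x, 0 < x → x < δ → f x < 0) := by
  by_cases h : Zacc f
  · exact Or.inl h
  right
  unfold Zacc at h
  push Not at h
  obtain ⟨δ, hδ, hne⟩ := h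
  have hne' : ∀ x ∈ Ioo (0 : ℝ) δ, f x ≠ 0 := fun x hx => hne x hx.1 hx.2
  have hm : δ / 2 ∈ Ioo (0 : ℝ) δ := ⟨by linarith, by linarith⟩
  rcases lt_or_gt_of_ne (hne' _ hm) with h | h
  · right
    exact ⟨δ, hδ, fun x h1 h2 => const_sign_neg hf ordConnected_Ioo hne' hm ⟨h1, h2⟩ h⟩
  · left
    exact ⟨δ, hδ, fun x h1 h2 => const_sign hf ordConnected_Ioo hne' hm ⟨h1, h2⟩ h⟩

include hf he in
theorem L1 {δ : ℝ} (hδ : 0 < δ) (hpos : ∀ x, 0 < x → x < δ → 0 < f x) :
    ∀ x, 0 < x → 0 < f x := by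
  by_contra hcon
  push Not at hcon
  obtain ⟨y, hy0, hfy⟩ := hcon
  have hyδ : δ ≤ y := by
    by_contra h
    push Not at h
    linarith [hpos y hy0 h]
  -- least zero
  have hKc : IsCompact (Icc (δ / 2) y ∩ {x | f x ≤ 0}) :=
    isCompact_Icc.inter_right (isClosed_le hf continuous_const)
  obtain ⟨ξ, ⟨⟨hξ1, hξ2⟩, hfξ⟩, hξmin⟩ := hKc.exists_isLeast ⟨y, ⟨by linarith, le_rfl⟩, hfy⟩
  simp only [mem_ofPred_eq] at hfξ
  have hξpos : ∀ x, 0 < x → x < ξ → 0 < f x := by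
    intro x h1 h2
    rcases lt_or_ge x δ with h | h
    · exact hpos x h1 h
    · by_contra hc
      push Not at hc
      have := hξmin ⟨⟨by linarith, by linarith⟩, hc⟩
      linarith
  have hξ0 : 0 < ξ := by linarith
  set p := ξ / 2 with hp
  have hp0 : 0 < p := by linarith
  have hpξ : p < ξ := by linarith
  have hfp : 0 < f p := hξpos p hp0 hpξ
  have h0 := f_zero he
  -- main claim
  have claim : ∀ ε, 0 < ε → ε < f p → ∃ x₀, p ≤ x₀ ∧ x₀ < p + ε ∧ f x₀ = ε := by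
    intro ε hε hεp
    have hTc : IsCompact (Icc p ξ ∩ {x | f x ≤ ε}) :=
      isCompact_Icc.inter_right (isClosed_le hf continuous_const)
    obtain ⟨x₀, ⟨⟨hx1, hx2⟩, hfx₀⟩, hx₀min⟩ :=
      hTc.exists_isLeast ⟨ξ, ⟨hpξ.le, le_rfl⟩, by simp only [mem_ofPred_eq]; linarith⟩
    simp only [mem_ofPred_eq] at hfx₀
    have hfε : f x₀ = ε := by
      by_contra hne
      have hlt : f x₀ < ε := lt_of_le_of_ne hfx₀ hne
      have hmem : ε ∈ Icc (f x₀) (f p) := ⟨hlt.le, hεp.le⟩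
      obtain ⟨x, hx, hxe⟩ := intermediate_value_Icc' hx1 hf.continuousOn hmem
      have := hx₀min ⟨⟨hx.1, hx.2.trans hx2⟩, hxe.le⟩
      have hxx : x = x₀ := le_antisymm hx.2 this
      rw [hxx] at hxe
      exact hne hxe
    refine ⟨x₀, hx1, ?_, hfε⟩
    have hx₀0 : 0 < x₀ := by linarith
    have hgc : Continuous fun x => x + f x := by fun_prop
    have hmem : x₀ ∈ Icc (0 + f 0) (x₀ + f x₀) := by
      rw [h0, hfε]; exact ⟨by linarith, by linarith⟩
    obtain ⟨x₁, hx₁, hgx₁⟩ := intermediate_value_Icc hx₀0.le (hgc.continuousOn (s := Icc 0 x₀)) hmem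
    simp only at hgx₁
    have hx₁0 : 0 < x₁ := by
      rcases eq_or_lt_of_le hx₁.1 with h | h
      · rw [← h, h0] at hgx₁; linarith
      · exact h
    have hx₁lt : x₁ < x₀ := by
      rcases eq_or_lt_of_le hx₁.2 with h | h
      · rw [h, hfε] at hgx₁; linarith
      · exact h
    have hf1 : 0 < f x₁ := hξpos x₁ hx₁0 (by linarith)
    have hf2 : 0 < f (f x₁) := hξpos _ hf1 (by linarith)
    have hf3 := he x₁
    rw [hgx₁, hfε] at hf3
    have hx₁p : x₁ < p := by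
      by_contra hc
      push Not at hc
      have := hx₀min ⟨⟨hc, by linarith⟩, (by simp only [mem_ofPred_eq]; linarith : x₁ ∈ {x | f x ≤ ε})⟩
      linarith
    linarith
  obtain ⟨η, hη, hηf⟩ := cont_at hf p (ε := f p / 2) (by linarith)
  obtain ⟨x₀, h1, h2, h3⟩ := claim (min η (f p / 2) / 2) (by positivity) (by
    have := min_le_right η (f p / 2)
    linarith)
  have h4 : |x₀ - p| < η := by
    rw [abs_of_nonneg (by linarith)]
    have := min_le_left η (f p / 2)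
    linarith
  have h5 := (abs_lt.1 (hηf x₀ h4)).1
  have h6 := min_le_right η (f p / 2)
  linarith

include he in
theorem L2_iter {x ξ : ℝ} (h1 : f x = ξ) (h2 : f ξ = 0) (k : ℕ) : f (x + k * ξ) = ξ := by
  induction k with
  | zero => simp [h1]
  | succ k ih =>
    have h := he (x + k * ξ)
    rw [ih, h2] at h
    have e : x + ((k + 1 : ℕ) : ℝ) * ξ = x + k * ξ + ξ := by push_cast; ring
    rw [e, h, add_zero]

include hf he in
theorem L2 (hz : Zacc f) {x₀ y : ℝ} (h : 0 < f x₀) (hy0 : 0 ≤ y) (hy : x₀ ≤ y) : f y = 0 := by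
  have h0 := f_zero he
  by_contra hne
  have habs : 0 < |f y| := abs_pos.2 hne
  obtain ⟨η, hη, hηf⟩ := cont_at hf y (ε := |f y| / 2) (by linarith)
  obtain ⟨ξ, hξ0, hξ1, hξ⟩ := hz (min η (min (|f y| / 2) (f x₀))) (by positivity)
  have i1 : ξ < η := hξ1.trans_le (min_le_left _ _)
  have i2 : ξ < |f y| / 2 := hξ1.trans_le ((min_le_right _ _).trans (min_le_left _ _))
  have i3 : ξ < f x₀ := hξ1.trans_le ((min_le_right _ _).trans (min_le_right _ _))
  have hmem : ξ ∈ uIcc (f 0) (f x₀) := by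
    rw [mem_uIcc, h0]; left; exact ⟨hξ0.le, i3.le⟩
  obtain ⟨x, hx, hfx⟩ := intermediate_value_uIcc (hf.continuousOn (s := uIcc 0 x₀)) hmem
  have hxy : x ≤ y := by
    rw [mem_uIcc] at hx
    rcases hx with h | h <;> linarith [h.1, h.2]
  have hq : 0 ≤ (y - x) / ξ := div_nonneg (by linarith) hξ0.le
  have hk1 := Nat.floor_le hq
  have hk2 := Nat.lt_floor_add_one ((y - x) / ξ)
  set k := ⌊(y - x) / ξ⌋₊ with hk
  rw [le_div_iff₀ hξ0] at hk1
  rw [div_lt_iff₀ hξ0] at hk2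
  have hfk := L2_iter he hfx hξ k
  have h4 : |x + k * ξ - y| < η := by
    rw [abs_lt]; constructor <;> nlinarith
  have h5 := hηf _ h4
  rw [hfk] at h5
  have h6 : |f y| ≤ |ξ - f y| + |ξ| := by
    have := abs_sub_abs_le_abs_sub (f y) ξ
    rw [abs_sub_comm (f y) ξ] at this
    linarith
  rw [abs_of_pos hξ0] at h6
  linarith

include he in
theorem L3 {b : ℝ} (hb : 0 ≤ b) (hneg : ∀ x, x ≤ 0 → f x = b * x) :
    ∀ x, 0 ≤ x → 0 ≤ f x := by
  by_contra hcon
  push Not at hcon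
  obtain ⟨y, hy0, hfy⟩ := hcon
  have key : ∀ n : ℕ, 0 ≤ (fun x => x + f x)^[n] y ∧ f ((fun x => x + f x)^[n] y) ≤ f y ∧
      (fun x => x + f x)^[n] y ≤ y + n * f y := by
    intro n
    induction n with
    | zero => simp [hy0]
    | succ n ih =>
      obtain ⟨i1, i2, i3⟩ := ih
      rw [Function.iterate_succ_apply']
      set z := (fun x => x + f x)^[n] y with hz
      have hfz : f z < 0 := i2.trans_lt hfy
      have h1 : f (z + f z) = (1 + b) * f z := by
        rw [he z, hneg (f z) hfz.le]; ring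
      have h2 : 0 ≤ z + f z := by
        by_contra hc
        push Not at hc
        rw [hneg _ hc.le] at h1
        nlinarith [mul_nonneg hb i1]
      refine ⟨h2, ?_, ?_⟩
      · rw [h1]; nlinarith
      · push_cast; linarith
  obtain ⟨n, hn⟩ := exists_nat_gt (y / -f y)
  rw [div_lt_iff₀ (by linarith)] at hn
  obtain ⟨j1, _, j3⟩ := key n
  linarith

include hf he in
theorem L4 {δ : ℝ} (hδ : 0 < δ) (h1 : ∀ x, 0 < x → x < δ → f x < 0)
    (h2 : ∀ x, -δ < x → x < 0 → 0 < f x) : ∀ x, 0 < x → f x < 0 := by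
  by_contra hcon
  push Not at hcon
  obtain ⟨y, hy0, hfy⟩ := hcon
  have hyδ : δ ≤ y := by
    by_contra h
    push Not at h
    linarith [h1 y hy0 h]
  have hKc : IsCompact (Icc (δ / 2) y ∩ {x | 0 ≤ f x}) :=
    isCompact_Icc.inter_right (isClosed_le continuous_const hf)
  obtain ⟨ξ, ⟨⟨hξ1, hξ2⟩, hfξ⟩, hξmin⟩ := hKc.exists_isLeast ⟨y, ⟨by linarith, le_rfl⟩, hfy⟩
  simp only [mem_ofPred_eq] at hfξ
  have hξneg : ∀ x, 0 < x → x < ξ → f x < 0 := by
    intro x h3 h4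
    rcases lt_or_ge x δ with h | h
    · exact h1 x h3 h
    · by_contra hc
      push Not at hc
      have := hξmin ⟨⟨by linarith, by linarith⟩, hc⟩
      linarith
  have hξ0 : 0 < ξ := by linarith
  have hfx := hξneg (ξ / 2) (by linarith) (by linarith)
  set c := min (δ / 2) (-f (ξ / 2)) with hc
  have hc0 : 0 < c := by rw [hc]; exact lt_min (by linarith) (by linarith)
  have hc1 : c ≤ δ / 2 := min_le_left _ _
  have hc2 : c ≤ -f (ξ / 2) := min_le_right _ _
  have hTc : IsCompact (Icc (ξ / 2) ξ ∩ {x | f x ≤ -c}) :=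
    isCompact_Icc.inter_right (isClosed_le hf continuous_const)
  obtain ⟨y₀, ⟨⟨hy1, hy2⟩, hfy₀⟩, hy₀max⟩ :=
    hTc.exists_isGreatest ⟨ξ / 2, ⟨le_rfl, by linarith⟩, by simp only [mem_ofPred_eq]; linarith⟩
  simp only [mem_ofPred_eq] at hfy₀
  have hgc : Continuous fun x => x + f x := by fun_prop
  have hmem : y₀ ∈ Icc (y₀ + f y₀) (ξ + f ξ) := ⟨by linarith, by linarith⟩
  obtain ⟨y', hy', hgy'⟩ := intermediate_value_Icc hy2 (hgc.continuousOn (s := Icc y₀ ξ)) hmem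
  simp only at hgy'
  have j1 : y₀ < y' := by
    rcases eq_or_lt_of_le hy'.1 with h | h
    · rw [← h] at hgy'; linarith
    · exact h
  have j2 : -c < f y' := by
    by_contra hcc
    push Not at hcc
    have := hy₀max ⟨⟨by linarith [hy'.1], hy'.2⟩, hcc⟩
    linarith
  have j3 : f y' < 0 := by linarith
  have j4 := h2 (f y') (by linarith) j3
  have j5 := he y'
  rw [hgy'] at j5
  linarith

end Pool.Agent.Y299.Forti
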