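import Mathlib

/-! # Choice of exponents -/

namespace Pool.Agent.Y299.Forti

/-- For `0 < θ₁ < θ₂` there are exponents separating `θ^p (1+θ)^a` and `(1+θ)^b` at the two
points. -/
theorem exists_exponents {θ₁ θ₂ : ℝ} (h1 : 0 < θ₁) (h12 : θ₁ < θ₂) :
    ∃ p a b : ℕ, 1 ≤ p ∧ b ≤ p ∧ Even (p + a + b) ∧
      θ₁ ^ p * (1 + θ₁) ^ a < (1 + θ₁) ^ b ∧ (1 + θ₂) ^ b < θ₂ ^ p * (1 + θ₂) ^ a := by
  have h2 : 0 < θ₂ := h1.trans h12
  have hC : 0 < Real.log (1 + θ₁) := Real.log_pos (by linarith)
  have hD : 0 < Real.log (1 + θ₂) := Real.log_pos (by linarith)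
  have hAC : Real.log θ₁ < Real.log (1 + θ₁) := Real.log_lt_log h1 (by linarith)
  have hBD : Real.log θ₂ < Real.log (1 + θ₂) := Real.log_lt_log h2 (by linarith)
  have hAB : Real.log θ₁ < Real.log θ₂ := Real.log_lt_log h1 h12
  have hCD : Real.log (1 + θ₁) < Real.log (1 + θ₂) := Real.log_lt_log (by linarith) (by linarith)
  have hdiff : Real.log (1 + θ₂) - Real.log (1 + θ₁) < Real.log θ₂ - Real.log θ₁ := by
    rw [← Real.log_div (by linarith) (by linarith), ← Real.log_div h2.ne' h1.ne']
    apply Real.log_lt_log (by positivity)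
    rw [div_lt_div_iff₀ (by linarith) h1]
    nlinarith
  set A := Real.log θ₁ with hA
  set B := Real.log θ₂ with hB
  set C := Real.log (1 + θ₁) with hCdef
  set D := Real.log (1 + θ₂) with hDdef
  have hkey : A * D < B * C := by
    have e : B * C - A * D = (B - A) * C - A * (D - C) := by ring
    have : 0 < (B - A) * C - A * (D - C) := by
      rcases le_or_gt A 0 with hA0 | hA0
      · have := mul_pos (sub_pos.2 hAB) hC
        have := mul_nonpos_of_nonpos_of_nonneg hA0 (sub_pos.2 hCD).le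
        nlinarith
      · have i1 : A * (D - C) < C * (D - C) := mul_lt_mul_of_pos_right hAC (sub_pos.2 hCD)
        have i2 : C * (D - C) < C * (B - A) := mul_lt_mul_of_pos_left hdiff hC
        nlinarith
    linarith
  have hlt : A / C < B / D := by
    rw [div_lt_div_iff₀ hC hD]; exact hkey
  obtain ⟨q, hq1, hq2⟩ := exists_rat_btwn hlt
  have hden : (0 : ℝ) < q.den := by exact_mod_cast q.den_pos
  have hqe : (q : ℝ) = (q.num : ℝ) / q.den := by exact_mod_cast (Rat.num_div_den q).symm
  have hq1' : (q.den : ℝ) * A < q.num * C := by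
    rw [hqe, div_lt_div_iff₀ hC hden] at hq1
    linarith
  have hq2' : (q.num : ℝ) * D < q.den * B := by
    rw [hqe, div_lt_div_iff₀ hden hD] at hq2
    linarith
  have hnd : (q.num : ℝ) < q.den := by
    have : (q.num : ℝ) * D < q.den * D :=
      hq2'.trans (mul_lt_mul_of_pos_left hBD hden)
    exact lt_of_mul_lt_mul_right this hD.le
  have hnd' : q.num < (q.den : ℤ) := by exact_mod_cast hnd
  obtain ⟨b', a', hba, hb'⟩ : ∃ b' a' : ℕ, q.num = (b' : ℤ) - a' ∧ b' ≤ q.den := by
    refine ⟨q.num.toNat, (-q.num).toNat, by omega, by omega⟩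
  have hbaR : (q.num : ℝ) = (b' : ℝ) - a' := by rw [hba]; push_cast; ring
  have hden1 : 1 ≤ q.den := q.den_pos
  refine ⟨2 * q.den, 2 * a', 2 * b', by omega, by omega, ?_, ?_, ?_⟩
  · exact ⟨q.den + a' + b', by ring⟩
  · rw [← Real.log_lt_log_iff (by positivity) (by positivity), Real.log_mul (by positivity)
      (by positivity), Real.log_pow, Real.log_pow, Real.log_pow, ← hA, ← hCdef]
    push_cast
    rw [hbaR] at hq1'
    nlinarith
  · rw [← Real.log_lt_log_iff (by positivity) (by positivity), Real.log_mul (by positivity)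
      (by positivity), Real.log_pow, Real.log_pow, Real.log_pow, ← hB, ← hDdef]
    push_cast
    rw [hbaR] at hq2'
    nlinarith

end Pool.Agent.Y299.Forti
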