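import Pool.Agent.Y299.Forti.Mom
import Pool.Agent.Y299.Forti.Rat

/-! # The abstract rigidity lemma for a commuting pair with `N (G s) = N s + N (F s)` -/

namespace Pool.Agent.Y299.Forti

/-- Data for the rigidity lemma. -/
structure Sys (S : Type) where
  N : S → ℝ
  F : S → S
  G : S → S
  le : S → S → Prop
  pos : ∀ s, 0 < N s
  comm : ∀ s, F (G s) = G (F s)
  add : ∀ s, N (G s) = N s + N (F s)
  t1 : ∀ x b, le x (G b) → ∃ x', le x' b ∧ G x' = x
  t2 : ∀ x b, le x b → N x ≤ N b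
  t3 : ∀ x b, ∃ k : ℕ, le x (G^[k] b)
  ivt : ∀ p a b : ℕ, Even (p + a + b) → ∀ v y : S,
    N (G^[b] v) < N (F^[p] (G^[a] v)) →
    N (G^[b] (G v)) < N (F^[p] (G^[a] (G v))) →
    N (F^[p] (G^[a] y)) < N (G^[b] y) → ∃ s, F^[p] (G^[a] s) = G^[b] s

namespace Sys

variable {S : Type} (X : Sys S)

theorem commute : Function.Commute X.F X.G := fun s => X.comm s

theorem surj (s : S) : ∃ z, X.G z = s := by
  obtain ⟨k, hk⟩ := X.t3 s (X.G s)
  rw [← Function.iterate_succ_apply, Function.iterate_succ_apply'] at hk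
  obtain ⟨x', _, hx'⟩ := X.t1 _ _ hk
  exact ⟨x', hx'⟩

theorem surj_iter (n : ℕ) (s : S) : ∃ z, X.G^[n] z = s := by
  induction n generalizing s with
  | zero => exact ⟨s, rfl⟩
  | succ n ih =>
    obtain ⟨z, hz⟩ := ih s
    obtain ⟨w, hw⟩ := X.surj z
    exact ⟨w, by rw [Function.iterate_succ_apply, hw, hz]⟩

theorem G_sq (s : S) : X.N (X.G s) ^ 2 ≤ X.N (X.G (X.G s)) * X.N s := by
  apply sq_le_of_mom (X.pos _)
  intro N hN t
  obtain ⟨n, rfl⟩ : ∃ n, N = n + 2 := ⟨N - 2, by omega⟩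
  obtain ⟨z, hz⟩ := X.surj_iter n s
  have h := mom_nonneg (n + 2) (fun i j => X.N (X.F^[i] (X.G^[n + 2 - (i + j)] z))) ?_ ?_ t
  · have e0 : X.G^[n + 2 - (0 + 0)] z = X.G (X.G s) := by
      rw [← hz]
      simp only [add_zero, Nat.sub_zero]
      rw [Function.iterate_succ_apply', Function.iterate_succ_apply']
    have e1 : X.G^[n + 2 - (0 + 1)] z = X.G s := by
      rw [← hz]
      have : n + 2 - (0 + 1) = n + 1 := by omega
      rw [this, Function.iterate_succ_apply']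
    have e2 : X.G^[n + 2 - (0 + 2)] z = s := by
      have : n + 2 - (0 + 2) = n := by omega
      rw [this, hz]
    simp only [e0, e1, e2, Function.iterate_zero, id_eq] at h
    exact h
  · intro i j hij
    have h1 : n + 2 - (i + j) = (n + 2 - (i + j + 1)) + 1 := by omega
    have h2 : n + 2 - (i + 1 + j) = n + 2 - (i + j + 1) := by omega
    have h3 : n + 2 - (i + (j + 1)) = n + 2 - (i + j + 1) := by omega
    rw [h1, h2, h3, Function.iterate_succ_apply', (X.commute.iterate_left i).eq, X.add,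
      ← Function.iterate_succ_apply' X.F]
    ring
  · intro i j _
    exact (X.pos _).le

theorem F_sq (s : S) : X.N (X.F s) ^ 2 ≤ X.N s * X.N (X.F (X.F s)) := by
  have h := X.G_sq s
  have e1 := X.add s
  have e2 := X.add (X.G s)
  have e3 := X.add (X.F s)
  rw [X.comm s] at e2
  rw [e2, e3, e1] at h
  nlinarith

/-- The multiplier. -/
noncomputable def T (s : S) : ℝ := X.N (X.F s) / X.N s

theorem T_pos (s : S) : 0 < X.T s := div_pos (X.pos _) (X.pos _)

theorem N_F (s : S) : X.N (X.F s) = X.T s * X.N s := by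
  unfold T
  have := (X.pos s).ne'
  field_simp

theorem N_G (s : S) : X.N (X.G s) = (1 + X.T s) * X.N s := by
  rw [X.add, X.N_F]; ring

theorem T_le_F (s : S) : X.T s ≤ X.T (X.F s) := by
  unfold T
  rw [div_le_div_iff₀ (X.pos _) (X.pos _)]
  nlinarith [X.F_sq s]

theorem T_le_G (s : S) : X.T s ≤ X.T (X.G s) := by
  unfold T
  rw [div_le_div_iff₀ (X.pos _) (X.pos _), X.comm, X.add, X.add]
  nlinarith [X.F_sq s]

theorem T_G_le_F (s : S) : X.T (X.G s) ≤ X.T (X.F s) := by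
  unfold T
  rw [div_le_div_iff₀ (X.pos _) (X.pos _), X.comm, X.add, X.add]
  nlinarith [X.F_sq s]

theorem T_le_iter_F (n : ℕ) (s : S) : X.T s ≤ X.T (X.F^[n] s) := by
  induction n with
  | zero => exact le_rfl
  | succ n ih =>
    rw [Function.iterate_succ_apply']
    exact ih.trans (X.T_le_F _)

theorem T_le_iter_G (n : ℕ) (s : S) : X.T s ≤ X.T (X.G^[n] s) := by
  induction n with
  | zero => exact le_rfl
  | succ n ih =>
    rw [Function.iterate_succ_apply']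
    exact ih.trans (X.T_le_G _)

theorem T_iter_G_le_F (n : ℕ) (s : S) : X.T (X.G^[n] s) ≤ X.T (X.F^[n] s) := by
  induction n generalizing s with
  | zero => exact le_rfl
  | succ n ih =>
    rw [Function.iterate_succ_apply', Function.iterate_succ_apply]
    calc X.T (X.G (X.G^[n] s)) ≤ X.T (X.F (X.G^[n] s)) := X.T_G_le_F _
      _ = X.T (X.G^[n] (X.F s)) := by rw [(X.commute.iterate_right n).eq]
      _ ≤ X.T (X.F^[n] (X.F s)) := ih _

theorem lower1 {θ : ℝ} (hθ : 0 ≤ θ) (q : ℕ) (s : S) (h : θ ≤ X.T s) :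
    θ ^ q * X.N s ≤ X.N (X.F^[q] s) := by
  induction q with
  | zero => simp
  | succ q ih =>
    rw [Function.iterate_succ_apply', X.N_F, pow_succ]
    have h1 : θ ≤ X.T (X.F^[q] s) := h.trans (X.T_le_iter_F q s)
    calc θ ^ q * θ * X.N s = θ * (θ ^ q * X.N s) := by ring
      _ ≤ X.T (X.F^[q] s) * X.N (X.F^[q] s) :=
        mul_le_mul h1 ih (mul_nonneg (pow_nonneg hθ _) (X.pos _).le) (X.T_pos _).le

theorem lower2 {θ : ℝ} (hθ : 0 ≤ θ) (q : ℕ) (s : S) (h : θ ≤ X.T s) :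
    (1 + θ) ^ q * X.N s ≤ X.N (X.G^[q] s) := by
  induction q with
  | zero => simp
  | succ q ih =>
    rw [Function.iterate_succ_apply', X.N_G, pow_succ]
    have h1 : 1 + θ ≤ 1 + X.T (X.G^[q] s) := by linarith [h.trans (X.T_le_iter_G q s)]
    calc (1 + θ) ^ q * (1 + θ) * X.N s = (1 + θ) * ((1 + θ) ^ q * X.N s) := by ring
      _ ≤ (1 + X.T (X.G^[q] s)) * X.N (X.G^[q] s) :=
        mul_le_mul h1 ih (mul_nonneg (by positivity) (X.pos _).le)
          (by linarith [X.T_pos (X.G^[q] s)])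

theorem lower3 {θ : ℝ} (hθ : 0 ≤ θ) (b : ℕ) (s : S) (h : θ ≤ X.T s) :
    θ ^ b * X.N (X.G^[b] s) ≤ (1 + θ) ^ b * X.N (X.F^[b] s) := by
  induction b with
  | zero => simp
  | succ b ih =>
    rw [Function.iterate_succ_apply', Function.iterate_succ_apply', X.N_G, X.N_F, pow_succ,
      pow_succ]
    have h1 : θ ≤ X.T (X.G^[b] s) := h.trans (X.T_le_iter_G b s)
    have h2 : X.T (X.G^[b] s) ≤ X.T (X.F^[b] s) := X.T_iter_G_le_F b s
    have h3 : θ * (1 + X.T (X.G^[b] s)) ≤ (1 + θ) * X.T (X.F^[b] s) := by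
      nlinarith
    calc θ ^ b * θ * ((1 + X.T (X.G^[b] s)) * X.N (X.G^[b] s))
        = (θ * (1 + X.T (X.G^[b] s))) * (θ ^ b * X.N (X.G^[b] s)) := by ring
      _ ≤ ((1 + θ) * X.T (X.F^[b] s)) * ((1 + θ) ^ b * X.N (X.F^[b] s)) :=
        mul_le_mul h3 ih (mul_nonneg (pow_nonneg hθ _) (X.pos _).le)
          (mul_nonneg (by linarith) (X.T_pos _).le)
      _ = (1 + θ) ^ b * (1 + θ) * (X.T (X.F^[b] s) * X.N (X.F^[b] s)) := by ring

theorem lower {θ : ℝ} (hθ : 0 ≤ θ) {p a b : ℕ} (hbp : b ≤ p) (s : S) (h : θ ≤ X.T s) :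
    θ ^ p * (1 + θ) ^ a * X.N (X.G^[b] s) ≤ (1 + θ) ^ b * X.N (X.F^[p] (X.G^[a] s)) := by
  obtain ⟨q, rfl⟩ : ∃ q, p = q + b := ⟨p - b, by omega⟩
  set u := X.G^[a] s with hu
  have hTu : θ ≤ X.T u := h.trans (X.T_le_iter_G a s)
  have h1 : θ ^ q * X.N (X.F^[b] u) ≤ X.N (X.F^[q + b] u) := by
    rw [Function.iterate_add_apply]
    exact X.lower1 hθ q _ (hTu.trans (X.T_le_iter_F b u))
  have h2 := X.lower3 hθ b u hTu
  have h3 : (1 + θ) ^ a * X.N (X.G^[b] s) ≤ X.N (X.G^[b] u) := by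
    rw [hu, ← Function.iterate_add_apply, add_comm b a, Function.iterate_add_apply]
    exact X.lower2 hθ a _ (h.trans (X.T_le_iter_G b s))
  calc θ ^ (q + b) * (1 + θ) ^ a * X.N (X.G^[b] s)
      = θ ^ q * (θ ^ b * ((1 + θ) ^ a * X.N (X.G^[b] s))) := by rw [pow_add]; ring
    _ ≤ θ ^ q * (θ ^ b * X.N (X.G^[b] u)) := by gcongr
    _ ≤ θ ^ q * ((1 + θ) ^ b * X.N (X.F^[b] u)) := by gcongr
    _ = (1 + θ) ^ b * (θ ^ q * X.N (X.F^[b] u)) := by ring
    _ ≤ (1 + θ) ^ b * X.N (X.F^[q + b] u) := by gcongr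

theorem upperF {t : ℝ} (p : ℕ) (s : S) (h : X.T (X.F^[p] s) ≤ t) :
    X.N (X.F^[p] s) ≤ t ^ p * X.N s := by
  induction p with
  | zero => simp
  | succ p ih =>
    have ht : X.T (X.F^[p] s) ≤ t := by
      rw [Function.iterate_succ_apply'] at h
      exact (X.T_le_F _).trans h
    have ht0 : 0 ≤ t := (X.T_pos _).le.trans ht
    rw [Function.iterate_succ_apply', X.N_F, pow_succ]
    calc X.T (X.F^[p] s) * X.N (X.F^[p] s) ≤ t * (t ^ p * X.N s) :=
          mul_le_mul ht (ih ht) (X.pos _).le ht0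
      _ = t ^ p * t * X.N s := by ring

theorem upperG {t : ℝ} (p : ℕ) (s : S) (h : X.T (X.G^[p] s) ≤ t) :
    X.N (X.G^[p] s) ≤ (1 + t) ^ p * X.N s := by
  induction p with
  | zero => simp
  | succ p ih =>
    have ht : X.T (X.G^[p] s) ≤ t := by
      rw [Function.iterate_succ_apply'] at h
      exact (X.T_le_G _).trans h
    have ht0 : 0 ≤ t := (X.T_pos _).le.trans ht
    rw [Function.iterate_succ_apply', X.N_G, pow_succ]
    calc (1 + X.T (X.G^[p] s)) * X.N (X.G^[p] s) ≤ (1 + t) * ((1 + t) ^ p * X.N s) :=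
          mul_le_mul (by linarith) (ih ht) (X.pos _).le (by linarith)
      _ = (1 + t) ^ p * (1 + t) * X.N s := by ring

theorem upper {t : ℝ} (p a : ℕ) (s : S) (h : X.T (X.F^[a + p] s) ≤ t) :
    X.N (X.F^[p] (X.G^[a] s)) ≤ t ^ p * (1 + t) ^ a * X.N s := by
  have h1 : X.T (X.F^[p] (X.G^[a] s)) ≤ t := by
    rw [(X.commute.iterate_iterate p a).eq]
    refine (X.T_iter_G_le_F a _).trans ?_
    rw [← Function.iterate_add_apply]
    exact h
  have h2 : X.T (X.G^[a] s) ≤ t := (X.T_le_iter_F p _).trans h1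
  have ht0 : 0 ≤ t := (X.T_pos _).le.trans h1
  calc X.N (X.F^[p] (X.G^[a] s)) ≤ t ^ p * X.N (X.G^[a] s) := X.upperF p _ h1
    _ ≤ t ^ p * ((1 + t) ^ a * X.N s) := by
      have := X.upperG a s h2
      gcongr
    _ = t ^ p * (1 + t) ^ a * X.N s := by ring

theorem t1_iter (k : ℕ) (x b : S) (h : X.le x (X.G^[k] b)) :
    ∃ x', X.le x' b ∧ X.G^[k] x' = x := by
  induction k generalizing x with
  | zero => exact ⟨x, h, rfl⟩
  | succ k ih =>
    rw [Function.iterate_succ_apply'] at h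
    obtain ⟨x1, h1, h2⟩ := X.t1 _ _ h
    obtain ⟨x', h3, h4⟩ := ih x1 h1
    exact ⟨x', h3, by rw [Function.iterate_succ_apply', h4, h2]⟩

theorem iter_back {b : ℕ → S} (hb : ∀ n, X.G (b (n + 1)) = b n) (n : ℕ) :
    X.G^[n] (b n) = b 0 := by
  induction n with
  | zero => rfl
  | succ n ih => rw [Function.iterate_succ_apply, hb, ih]

/-- The trap: multipliers along a backward `G`-orbit get below any multiplier. -/
theorem trap {b : ℕ → S} (hb : ∀ n, X.G (b (n + 1)) = b n) (x : S) {m : ℝ}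
    (hm : X.T x < m) : ∃ n, X.T (b n) < m := by
  by_contra hcon
  push Not at hcon
  obtain ⟨k, hk⟩ := X.t3 x (b 0)
  have hTx := X.T_pos x
  have hm0 : 0 < m := hTx.trans hm
  have key : ∀ n : ℕ, (1 + m) ^ n * X.N x ≤ (1 + X.T x) ^ n * ((1 + X.T x) ^ k * X.N (b 0)) := by
    intro n
    have h1 : (1 + m) ^ n * X.N (b n) ≤ X.N (b 0) := by
      have := X.lower2 hm0.le n (b n) (hcon n)
      rwa [X.iter_back hb n] at this
    have h2 : X.le x (X.G^[k + n] (b n)) := by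
      rw [Function.iterate_add_apply, X.iter_back hb n]; exact hk
    obtain ⟨x', h3, h4⟩ := X.t1_iter _ _ _ h2
    have h5 : X.N x ≤ (1 + X.T x) ^ (k + n) * X.N x' := by
      have := X.upperG (t := X.T x) (k + n) x' (by rw [h4])
      rwa [h4] at this
    have h6 : X.N x' ≤ X.N (b n) := X.t2 _ _ h3
    calc (1 + m) ^ n * X.N x ≤ (1 + m) ^ n * ((1 + X.T x) ^ (k + n) * X.N (b n)) := by
          gcongr
          exact h5.trans (by gcongr)
      _ = (1 + X.T x) ^ (k + n) * ((1 + m) ^ n * X.N (b n)) := by ring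
      _ ≤ (1 + X.T x) ^ (k + n) * X.N (b 0) := by gcongr
      _ = (1 + X.T x) ^ n * ((1 + X.T x) ^ k * X.N (b 0)) := by rw [pow_add]; ring
  have hr : 1 < (1 + m) / (1 + X.T x) := by
    rw [one_lt_div (by linarith)]; linarith
  obtain ⟨n, hn⟩ := pow_unbounded_of_one_lt ((1 + X.T x) ^ k * X.N (b 0) / X.N x) hr
  have h7 := key n
  rw [div_pow, div_lt_div_iff₀ (X.pos _) (by positivity)] at hn
  linarith

/-- Backward orbits exist. -/
theorem exists_back (s : S) : ∃ y : ℕ → S, y 0 = s ∧ ∀ n, X.G (y (n + 1)) = y n := by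
  choose z hz using X.surj
  refine ⟨fun n => z^[n] s, rfl, fun n => ?_⟩
  simp only
  rw [Function.iterate_succ_apply', hz]

/-- `N (A s) / N (B s)` increases along `G`. -/
theorem ratio_mono {p a b : ℕ} (hbp : b ≤ p) (s : S) :
    X.N (X.F^[p] (X.G^[a] s)) * X.N (X.G^[b] (X.G s)) ≤
      X.N (X.F^[p] (X.G^[a] (X.G s))) * X.N (X.G^[b] s) := by
  have e1 : X.G^[b] (X.G s) = X.G (X.G^[b] s) := by
    rw [← Function.iterate_succ_apply, Function.iterate_succ_apply']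
  have e2 : X.F^[p] (X.G^[a] (X.G s)) = X.G (X.F^[p] (X.G^[a] s)) := by
    rw [← Function.iterate_succ_apply, Function.iterate_succ_apply',
      (X.commute.iterate_left p).eq]
  have h : X.T (X.G^[b] s) ≤ X.T (X.F^[p] (X.G^[a] s)) := by
    obtain ⟨q, rfl⟩ : ∃ q, p = q + b := ⟨p - b, by omega⟩
    calc X.T (X.G^[b] s) ≤ X.T (X.F^[b] s) := X.T_iter_G_le_F b s
      _ ≤ X.T (X.F^[q] (X.F^[b] s)) := X.T_le_iter_F q _
      _ = X.T (X.F^[q + b] s) := by rw [Function.iterate_add_apply]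
      _ ≤ X.T (X.G^[a] (X.F^[q + b] s)) := X.T_le_iter_G a _
      _ = X.T (X.F^[q + b] (X.G^[a] s)) := by rw [(X.commute.iterate_iterate (q + b) a).eq]
  rw [e1, e2, X.N_G, X.N_G]
  have h1 := mul_pos (X.pos (X.F^[p] (X.G^[a] s))) (X.pos (X.G^[b] s))
  nlinarith

theorem ratio_le_back {p a b : ℕ} (hbp : b ≤ p) {y : ℕ → S}
    (hy : ∀ n, X.G (y (n + 1)) = y n)
    (h0 : X.N (X.F^[p] (X.G^[a] (y 0))) ≤ X.N (X.G^[b] (y 0))) (n : ℕ) :
    X.N (X.F^[p] (X.G^[a] (y n))) ≤ X.N (X.G^[b] (y n)) := by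
  induction n with
  | zero => exact h0
  | succ n ih =>
    have h := X.ratio_mono (a := a) hbp (y (n + 1))
    rw [hy] at h
    have hp1 := X.pos (X.F^[p] (X.G^[a] (y (n + 1))))
    have hp2 := X.pos (X.G^[b] (y (n + 1)))
    have hp3 := X.pos (X.G^[b] (y n))
    have hp4 := X.pos (X.F^[p] (X.G^[a] (y n)))
    by_contra hcon
    push Not at hcon
    have : X.N (X.F^[p] (X.G^[a] (y n))) * X.N (X.G^[b] (y (n + 1)))
        < X.N (X.F^[p] (X.G^[a] (y (n + 1)))) * X.N (X.G^[b] (y n)) := by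
      calc X.N (X.F^[p] (X.G^[a] (y n))) * X.N (X.G^[b] (y (n + 1)))
          ≤ X.N (X.G^[b] (y n)) * X.N (X.G^[b] (y (n + 1))) := by gcongr
        _ < X.N (X.G^[b] (y n)) * X.N (X.F^[p] (X.G^[a] (y (n + 1)))) := by gcongr
        _ = _ := by ring
    linarith

/-- If `A s = B s` then equality of `N`-values persists along backward orbits. -/
theorem ratio_eq_back {p a b : ℕ} (hbp : b ≤ p) {y : ℕ → S}
    (hy : ∀ n, X.G (y (n + 1)) = y n)
    (h0 : X.F^[p] (X.G^[a] (y 0)) = X.G^[b] (y 0)) (n : ℕ) :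
    X.N (X.F^[p] (X.G^[a] (y n))) = X.N (X.G^[b] (y n)) := by
  have hle := X.ratio_le_back (a := a) hbp hy (by rw [h0])
  have hyF : ∀ n, X.G (X.F (y (n + 1))) = X.F (y n) := by
    intro n
    rw [← X.comm, hy]
  have hF0 : X.F^[p] (X.G^[a] (X.F (y 0))) = X.G^[b] (X.F (y 0)) := by
    rw [← (X.commute.iterate_right a).eq, ← (X.commute.iterate_right b).eq, ← h0,
      ← Function.iterate_succ_apply, Function.iterate_succ_apply']
  have hleF := X.ratio_le_back (a := a) hbp (y := fun n => X.F (y n)) hyF (by rw [hF0])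
  induction n with
  | zero => rw [h0]
  | succ n ih =>
    have hb1 : X.G^[b] (y n) = X.G (X.G^[b] (y (n + 1))) := by
      rw [← hy n, ← Function.iterate_succ_apply, Function.iterate_succ_apply']
    have ha1 : X.F^[p] (X.G^[a] (y n)) = X.G (X.F^[p] (X.G^[a] (y (n + 1)))) := by
      rw [← hy n, ← Function.iterate_succ_apply, Function.iterate_succ_apply',
        (X.commute.iterate_left p).eq]
    rw [ha1, hb1, X.add, X.add] at ih
    have h1 := hle (n + 1)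
    have h2 := hleF (n + 1)
    have e3 : X.F (X.F^[p] (X.G^[a] (y (n + 1)))) = X.F^[p] (X.G^[a] (X.F (y (n + 1)))) := by
      rw [← Function.iterate_succ_apply' X.F, Function.iterate_succ_apply,
        (X.commute.iterate_right a).eq]
    have e4 : X.F (X.G^[b] (y (n + 1))) = X.G^[b] (X.F (y (n + 1))) := by
      rw [(X.commute.iterate_right b).eq]
    rw [e3, e4] at ih
    linarith

/-- Rigidity: the multiplier is constant. -/
theorem T_const (x v : S) : X.T x = X.T v := by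
  suffices H : ∀ x v, ¬ X.T x < X.T v by
    rcases lt_trichotomy (X.T x) (X.T v) with h | h | h
    · exact absurd h (H _ _)
    · exact h
    · exact absurd h (H _ _)
  intro x v hxv
  set τ := ⨅ s, X.T s with hτ
  have hbdd : BddBelow (Set.range X.T) := ⟨0, by rintro _ ⟨s, rfl⟩; exact (X.T_pos s).le⟩
  have hτle : ∀ s, τ ≤ X.T s := fun s => ciInf_le hbdd s
  have : Nonempty S := ⟨x⟩
  have hτ0 : 0 ≤ τ := le_ciInf fun s => (X.T_pos s).le
  have hτv : τ < X.T v := (hτle x).trans_lt hxv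
  obtain ⟨θ₁, h1a, h1b⟩ := exists_between hτv
  obtain ⟨θ₂, h2a, h2b⟩ := exists_between h1b
  have hθ1 : 0 < θ₁ := hτ0.trans_lt h1a
  have hθ2 : 0 < θ₂ := hθ1.trans h2a
  obtain ⟨p, a, b, hp1, hbp, hev, hlo, hhi⟩ := exists_exponents hθ1 h2a
  -- the inequality at τ
  have hτlt : τ ^ p * (1 + τ) ^ a < (1 + τ) ^ b := by
    obtain ⟨q, rfl⟩ : ∃ q, p = q + b := ⟨p - b, by omega⟩
    have i1 : τ * (1 + θ₁) ≤ θ₁ * (1 + τ) := by nlinarith
    have i2 : (τ * (1 + θ₁)) ^ b ≤ (θ₁ * (1 + τ)) ^ b := pow_le_pow_left₀ (by positivity) i1 b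
    have i3 : τ ^ q ≤ θ₁ ^ q := pow_le_pow_left₀ hτ0 h1a.le q
    have i4 : (1 + τ) ^ a ≤ (1 + θ₁) ^ a := pow_le_pow_left₀ (by positivity) (by linarith) a
    have i5 : τ ^ (q + b) * (1 + τ) ^ a * (1 + θ₁) ^ b ≤
        θ₁ ^ (q + b) * (1 + θ₁) ^ a * (1 + τ) ^ b := by
      calc τ ^ (q + b) * (1 + τ) ^ a * (1 + θ₁) ^ b
          = τ ^ q * (1 + τ) ^ a * (τ * (1 + θ₁)) ^ b := by rw [pow_add, mul_pow]; ring
        _ ≤ θ₁ ^ q * (1 + θ₁) ^ a * (θ₁ * (1 + τ)) ^ b := by gcongr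
        _ = θ₁ ^ (q + b) * (1 + θ₁) ^ a * (1 + τ) ^ b := by rw [pow_add, mul_pow]; ring
    have i6 : θ₁ ^ (q + b) * (1 + θ₁) ^ a * (1 + τ) ^ b < (1 + θ₁) ^ b * (1 + τ) ^ b := by
      gcongr
    have i7 : τ ^ (q + b) * (1 + τ) ^ a * (1 + θ₁) ^ b < (1 + τ) ^ b * (1 + θ₁) ^ b := by
      linarith
    exact lt_of_mul_lt_mul_right i7 (by positivity)
  obtain ⟨t, htτ, ht⟩ : ∃ t, τ < t ∧ t ^ p * (1 + t) ^ a < (1 + τ) ^ b := by
    have hcont : Continuous fun t : ℝ => t ^ p * (1 + t) ^ a := by fun_prop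
    have hev : ∀ᶠ t in nhds τ, t ^ p * (1 + t) ^ a < (1 + τ) ^ b :=
      hcont.continuousAt.eventually_lt continuousAt_const hτlt
    have hev' : ∀ᶠ t in nhdsWithin τ (Set.Ioi τ), t ^ p * (1 + t) ^ a < (1 + τ) ^ b :=
      hev.filter_mono nhdsWithin_le_nhds
    obtain ⟨t, h1, h2⟩ := (hev'.and self_mem_nhdsWithin).exists
    exact ⟨t, h2, h1⟩
  obtain ⟨x₀, hx₀⟩ : ∃ x₀, X.T x₀ < t := exists_lt_of_ciInf_lt htτ
  -- along every backward orbit the ratio gets `< 1`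
  have small : ∀ y : ℕ → S, (∀ n, X.G (y (n + 1)) = y n) →
      ∃ n, X.N (X.F^[p] (X.G^[a] (y n))) < X.N (X.G^[b] (y n)) := by
    intro y hy
    have hyF : ∀ n, X.G (X.F^[a + p] (y (n + 1))) = X.F^[a + p] (y n) := by
      intro n
      rw [← (X.commute.iterate_left (a + p)).eq, hy]
    obtain ⟨n, hn⟩ := X.trap (b := fun n => X.F^[a + p] (y n)) hyF x₀ hx₀
    refine ⟨n, ?_⟩
    calc X.N (X.F^[p] (X.G^[a] (y n))) ≤ t ^ p * (1 + t) ^ a * X.N (y n) := X.upper p a _ hn.le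
      _ < (1 + τ) ^ b * X.N (y n) := by
        have := X.pos (y n)
        gcongr
      _ ≤ X.N (X.G^[b] (y n)) := X.lower2 hτ0 b _ (hτle _)
  have big : ∀ w, θ₂ ≤ X.T w → X.N (X.G^[b] w) < X.N (X.F^[p] (X.G^[a] w)) := by
    intro w hw
    have h1 := X.lower (a := a) hθ2.le hbp w hw
    have h2 : (1 + θ₂) ^ b * X.N (X.G^[b] w) < θ₂ ^ p * (1 + θ₂) ^ a * X.N (X.G^[b] w) := by
      have := X.pos (X.G^[b] w)
      gcongr
    have h3 : (1 + θ₂) ^ b * X.N (X.G^[b] w) < (1 + θ₂) ^ b * X.N (X.F^[p] (X.G^[a] w)) :=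
      h2.trans_le h1
    exact lt_of_mul_lt_mul_left h3 (by positivity)
  obtain ⟨y, _, hy⟩ := X.exists_back v
  obtain ⟨n, hn⟩ := small y hy
  obtain ⟨s, hs⟩ := X.ivt p a b hev v (y n) (big v h2b.le)
    (big _ (h2b.le.trans (X.T_le_G v))) hn
  obtain ⟨z, hz0, hz⟩ := X.exists_back s
  obtain ⟨n', hn'⟩ := small z hz
  have := X.ratio_eq_back (a := a) hbp hz (by rw [hz0]; exact hs) n'
  linarith

end Sys

end Pool.Agent.Y299.Forti
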