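import Pool.Agent.Y299.Forti.Expand

/-! # The sign-reversing equation `k (k x - x) = k (k x) - k x` has only linear solutions -/

namespace Pool.Agent.Y299.Forti

open Set

theorem mem_uIcc_zero {x c : ℝ} (h : 0 < x * c) (h' : |x| ≤ |c|) : x ∈ uIcc 0 c := by
  rw [mem_uIcc]
  rcases lt_trichotomy c 0 with hc | hc | hc
  · right
    have hx : x < 0 := by
      by_contra hx
      push Not at hx
      nlinarith
    rw [abs_of_neg hx, abs_of_neg hc] at h'
    exact ⟨by linarith, hx.le⟩
  · rw [hc, mul_zero] at h; exact absurd h (lt_irrefl _)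
  · left
    have hx : 0 < x := by
      by_contra hx
      push Not at hx
      nlinarith
    rw [abs_of_pos hx, abs_of_pos hc] at h'
    exact ⟨hx.le, h'⟩

theorem sign_iter {h : ℝ → ℝ} (hh : ∀ x, x ≠ 0 → x * h x < 0) (n : ℕ) (x : ℝ) (hx : x ≠ 0) :
    0 < (-1 : ℝ) ^ n * (x * h^[n] x) := by
  induction n with
  | zero =>
    simp only [pow_zero, one_mul, Function.iterate_zero, id_eq]
    exact mul_self_pos.2 hx
  | succ n ih =>
    rw [Function.iterate_succ_apply']
    have hne : h^[n] x ≠ 0 := by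
      intro h0
      rw [h0] at ih
      simp at ih
    have h1 := hh _ hne
    have h2 : 0 < ((-1 : ℝ) ^ n * (x * h^[n] x)) * -(h^[n] x * h (h^[n] x)) :=
      mul_pos ih (by linarith)
    have h3 : ((-1 : ℝ) ^ n * (x * h^[n] x)) * -(h^[n] x * h (h^[n] x))
        = (h^[n] x) ^ 2 * ((-1 : ℝ) ^ (n + 1) * (x * h (h^[n] x))) := by
      rw [pow_succ]; ring
    rw [h3] at h2
    exact pos_of_mul_pos_of_pos_left' h2 (by positivity)
where
  pos_of_mul_pos_of_pos_left' {a b : ℝ} (h : 0 < a * b) (ha : 0 < a) : 0 < b :=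
    (pos_iff_pos_of_mul_pos h).1 ha

section

variable {k : ℝ → ℝ} (hk : Continuous k) (hs : ∀ x, x ≠ 0 → x * k x < 0)
  (he : ∀ x, k (k x - x) = k (k x) - k x)

include hs in
theorem E_abs {x : ℝ} (hx : x ≠ 0) : |k x - x| = |x| + |k x| := by
  have h := hs x hx
  rcases lt_or_gt_of_ne hx with h0 | h0
  · have hk : 0 < k x := by
      by_contra hc
      push Not at hc
      nlinarith
    rw [abs_of_neg h0, abs_of_pos hk, abs_of_pos (by linarith)]
    ring
  · have hk : k x < 0 := by
      by_contra hc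
      push Not at hc
      nlinarith
    rw [abs_of_pos h0, abs_of_neg hk, abs_of_neg (by linarith)]
    ring

include hs in
theorem E_sign {x : ℝ} (hx : x ≠ 0) : x * (k x - x) < 0 := by
  have h := hs x hx
  nlinarith [sq_nonneg x]

include he in
theorem E_zero : k 0 = 0 := by
  have := he 0
  rw [sub_zero] at this
  linarith

include hs in
theorem E_ne {x : ℝ} (hx : x ≠ 0) : k x ≠ 0 := by
  intro h
  have := hs x hx
  rw [h, mul_zero] at this
  exact lt_irrefl _ this

include hk hs in
theorem E_unbounded (b : ℝ) (hb : b ≠ 0) (M : ℝ) :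
    ∃ n : ℕ, M < |(fun x => k x - x)^[n] b| := by
  by_contra hcon
  push Not at hcon
  set g : ℝ → ℝ := fun x => k x - x with hg
  have hgne : ∀ n : ℕ, g^[n] b ≠ 0 := by
    intro n h0
    have := sign_iter (h := g) (fun x hx => E_sign hs hx) n b hb
    rw [h0] at this
    simp at this
  have hge : ∀ n : ℕ, |b| ≤ |g^[n] b| := by
    intro n
    induction n with
    | zero => exact le_rfl
    | succ n ih =>
      rw [Function.iterate_succ_apply', hg]
      simp only
      rw [E_abs hs (hgne n)]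
      have := abs_nonneg (k (g^[n] b))
      linarith
  -- the compact set
  have hKc : IsCompact {x : ℝ | |b| ≤ |x| ∧ |x| ≤ M} := by
    apply Metric.isCompact_of_isClosed_isBounded
    · exact (isClosed_le continuous_const continuous_abs).inter
        (isClosed_le continuous_abs continuous_const)
    · apply (Metric.isBounded_closedBall (x := (0 : ℝ)) (r := M)).subset
      intro x hx
      rw [Metric.mem_closedBall, dist_zero_right, Real.norm_eq_abs]
      exact hx.2
  have hKne : ({x : ℝ | |b| ≤ |x| ∧ |x| ≤ M}).Nonempty := ⟨b, le_rfl, hcon 0⟩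
  obtain ⟨x₀, hx₀, hmin⟩ := hKc.exists_isMinOn hKne (f := fun x => |k x|) (by fun_prop)
  have hx₀ne : x₀ ≠ 0 := by
    intro h0
    rw [h0] at hx₀
    have h1 : |b| ≤ |(0 : ℝ)| := hx₀.1
    rw [abs_zero] at h1
    exact hb (abs_nonpos_iff.1 h1)
  have hc : 0 < |k x₀| := abs_pos.2 (E_ne hs hx₀ne)
  have hlin : ∀ n : ℕ, |b| + n * |k x₀| ≤ |g^[n] b| := by
    intro n
    induction n with
    | zero => simp
    | succ n ih =>
      rw [Function.iterate_succ_apply', hg]
      simp only
      rw [E_abs hs (hgne n)]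
      have h1 : |k x₀| ≤ |k (g^[n] b)| := hmin ⟨hge n, hcon n⟩
      push_cast
      linarith
  obtain ⟨n, hn⟩ := exists_nat_gt ((M - |b|) / |k x₀|)
  rw [div_lt_iff₀ hc] at hn
  linarith [hlin n, hcon n]

/-- The system attached to `k`. -/
noncomputable def sysE : Sys {x : ℝ // x ≠ 0} where
  N := fun s => |(s : ℝ)|
  F := fun s => ⟨k s, E_ne hs s.2⟩
  G := fun s => ⟨k s - s, fun h => by have := E_sign hs s.2; rw [h, mul_zero] at this; exact lt_irrefl _ this⟩
  le := fun x c => (x : ℝ) ∈ uIcc 0 (c : ℝ)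
  pos := fun s => abs_pos.2 s.2
  comm := fun s => Subtype.ext (he s)
  add := fun s => E_abs hs s.2
  t1 := by
    rintro ⟨x, hx⟩ ⟨b, hb⟩ h
    simp only at h
    have hc : ContinuousOn (fun x => k x - x) (uIcc 0 b) := by fun_prop
    have h0 : k 0 - 0 = 0 := by simp [E_zero he]
    have := intermediate_value_uIcc hc
    simp only [h0] at this
    obtain ⟨x', hx', hxe⟩ := this h
    refine ⟨⟨x', ?_⟩, hx', Subtype.ext hxe⟩
    rintro rfl
    exact hx (hxe.symm.trans h0)
  t2 := by
    rintro ⟨x, hx⟩ ⟨b, hb⟩ h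
    simp only at h ⊢
    have := abs_sub_left_of_mem_uIcc h
    simpa using this
  t3 := by
    rintro ⟨x, hx⟩ ⟨b, hb⟩
    have hco : ∀ n : ℕ, (((fun s : {x : ℝ // x ≠ 0} => (⟨k s - s, fun h => by
        have := E_sign hs s.2; rw [h, mul_zero] at this; exact lt_irrefl _ this⟩ : {x : ℝ // x ≠ 0}))^[n]
        ⟨b, hb⟩ : {x : ℝ // x ≠ 0}) : ℝ) = (fun x => k x - x)^[n] b := by
      intro n
      exact Function.Semiconj.iterate_right (f := Subtype.val) (fun s => rfl) n _
    obtain ⟨n, hn⟩ := E_unbounded hk hs b hb |x|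
    have hne : (fun x => k x - x)^[n] b ≠ 0 := by
      intro h0
      rw [h0, abs_zero] at hn
      exact absurd hn (not_lt.2 (abs_nonneg _))
    rcases lt_or_gt_of_ne (mul_ne_zero hx hne) with h | h
    · refine ⟨n + 1, ?_⟩
      rw [hco]
      rw [Function.iterate_succ_apply']
      simp only
      set y := (fun x => k x - x)^[n] b with hy
      have h1 := E_sign hs hne
      apply mem_uIcc_zero
      · have h2 : 0 < (x * y) * (y * (k y - y)) := mul_pos_of_neg_of_neg h h1
        have h3 : (x * y) * (y * (k y - y)) = y ^ 2 * (x * (k y - y)) := by ring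
        rw [h3] at h2
        exact (pos_iff_pos_of_mul_pos h2).1 (by positivity)
      · rw [E_abs hs hne]
        have := abs_nonneg (k y)
        linarith
    · refine ⟨n, ?_⟩
      rw [hco]
      exact mem_uIcc_zero h hn.le
  ivt := by
    intro p a b hev
    have hcoG : ∀ (n : ℕ) (s : {x : ℝ // x ≠ 0}), (((fun s : {x : ℝ // x ≠ 0} => (⟨k s - s, fun h => by
        have := E_sign hs s.2; rw [h, mul_zero] at this; exact lt_irrefl _ this⟩ : {x : ℝ // x ≠ 0}))^[n]
        s : {x : ℝ // x ≠ 0}) : ℝ) = (fun x => k x - x)^[n] s := by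
      intro n s
      exact Function.Semiconj.iterate_right (f := Subtype.val) (fun s => rfl) n _
    have hcoF : ∀ (n : ℕ) (s : {x : ℝ // x ≠ 0}), (((fun s : {x : ℝ // x ≠ 0} =>
        (⟨k s, E_ne hs s.2⟩ : {x : ℝ // x ≠ 0}))^[n] s : {x : ℝ // x ≠ 0}) : ℝ) = k^[n] s := by
      intro n s
      exact Function.Semiconj.iterate_right (f := Subtype.val) (fun s => rfl) n _
    set g : ℝ → ℝ := fun x => k x - x with hg
    have hgc : Continuous g := by fun_prop
    have hA : Continuous fun x => k^[p] (g^[a] x) := (hk.iterate p).comp (hgc.iterate a)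
    have hB : Continuous fun x => g^[b] x := hgc.iterate b
    have main : ∀ v y : ℝ, 0 < v * y → |g^[b] v| < |k^[p] (g^[a] v)| →
        |k^[p] (g^[a] y)| < |g^[b] y| → ∃ s : ℝ, s ≠ 0 ∧ k^[p] (g^[a] s) = g^[b] s := by
      intro v y hvy h1 h2
      have hc : ContinuousOn (fun x => |g^[b] x| - |k^[p] (g^[a] x)|) (uIcc v y) := by
        apply Continuous.continuousOn
        exact (hB.abs).sub (hA.abs)
      have h3 : (0 : ℝ) ∈ uIcc (|g^[b] v| - |k^[p] (g^[a] v)|) (|g^[b] y| - |k^[p] (g^[a] y)|) := by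
        rw [mem_uIcc]; left; constructor <;> linarith
      obtain ⟨s, hs1, hs2⟩ := intermediate_value_uIcc hc h3
      simp only at hs2
      have hsne : s ≠ 0 := by
        rintro rfl
        rw [mem_uIcc] at hs1
        rcases hs1 with ⟨h4, h5⟩ | ⟨h4, h5⟩ <;> nlinarith
      refine ⟨s, hsne, ?_⟩
      have hgs : g^[a] s ≠ 0 := by
        intro h0
        have := sign_iter (h := g) (fun x hx => E_sign hs hx) a s hsne
        rw [h0] at this
        simp at this
      have i1 := sign_iter (h := g) (fun x hx => E_sign hs hx) a s hsne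
      have i2 := sign_iter hs p (g^[a] s) hgs
      have i3 := sign_iter (h := g) (fun x hx => E_sign hs hx) b s hsne
      have i4 := mul_pos (mul_pos i1 i2) i3
      obtain ⟨c, hc⟩ := hev
      have i5 : (-1 : ℝ) ^ a * (s * g^[a] s) * ((-1) ^ p * (g^[a] s * k^[p] (g^[a] s))) *
          ((-1) ^ b * (s * g^[b] s)) =
          ((-1 : ℝ) ^ (p + a + b) * (s * g^[a] s) ^ 2) * (k^[p] (g^[a] s) * g^[b] s) := by
        rw [pow_add, pow_add]; ring
      rw [i5, hc, ← two_mul, pow_mul, neg_one_sq, one_pow, one_mul] at i4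
      have i6 : 0 < k^[p] (g^[a] s) * g^[b] s :=
        (pos_iff_pos_of_mul_pos i4).1 (by positivity)
      have i7 : |k^[p] (g^[a] s)| = |g^[b] s| := by linarith
      rcases abs_eq_abs.1 i7 with h | h
      · exact h
      · rw [h] at i6
        nlinarith [mul_self_nonneg (g^[b] s)]
    rintro ⟨v, hv⟩ ⟨y, hy⟩ h1 h2 h3
    simp only [hcoF, hcoG] at h1 h2 h3
    have : ∃ s : ℝ, s ≠ 0 ∧ k^[p] (g^[a] s) = g^[b] s := by
      rcases lt_or_gt_of_ne (mul_ne_zero hv hy) with h | h
      · refine main (k v - v) y ?_ h2 h3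
        have h4 := mul_pos_of_neg_of_neg (E_sign hs hv) h
        have h5 : v * (k v - v) * (v * y) = v ^ 2 * ((k v - v) * y) := by ring
        rw [h5] at h4
        exact (pos_iff_pos_of_mul_pos h4).1 (by positivity)
      · exact main v y h h1 h3
    obtain ⟨s, hs0, hs1⟩ := this
    refine ⟨⟨s, hs0⟩, Subtype.ext ?_⟩
    rw [hcoF, hcoG, hcoG]
    exact hs1

include hk hs he in
/-- **Lemma E.** -/
theorem lemmaE : ∃ m : ℝ, 0 < m ∧ ∀ x, k x = -m * x := by
  refine ⟨|k 1|, abs_pos.2 (E_ne hs one_ne_zero), fun x => ?_⟩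
  rcases eq_or_ne x 0 with rfl | hx
  · rw [E_zero he]; ring
  · have h := (sysE hk hs he).T_const ⟨x, hx⟩ ⟨1, one_ne_zero⟩
    have h' : |k x| / |x| = |k 1| / |(1 : ℝ)| := h
    rw [abs_one, div_one, div_eq_iff (abs_ne_zero.2 hx)] at h'
    have h1 := hs x hx
    rcases lt_or_gt_of_ne hx with h0 | h0
    · have hk : 0 < k x := by
        by_contra hc
        push Not at hc
        nlinarith
      rw [abs_of_pos hk, abs_of_neg h0] at h'
      rw [h']; ring
    · have hk : k x < 0 := by
        by_contra hc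
        push Not at hc
        nlinarith
      rw [abs_of_neg hk, abs_of_pos h0] at h'
      linarith

end

end Pool.Agent.Y299.Forti
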