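import Mathlib

/-! # A second-moment inequality for Pascal-type double sequences -/

namespace Pool.Agent.Y299.Forti

/-- The quadratic form `∑ (j - t)^2 C(N,j) v(N-j,j)` written through `v 0 0, v 0 1, v 0 2`
is nonnegative. -/
theorem mom_nonneg : ∀ (N : ℕ) (v : ℕ → ℕ → ℝ),
    (∀ i j, i + j < N → v i j = v (i + 1) j + v i (j + 1)) →
    (∀ i j, i + j = N → 0 ≤ v i j) → ∀ t : ℝ,
    0 ≤ (N : ℝ) * (N - 1) * v 0 2 + N * (1 - 2 * t) * v 0 1 + t ^ 2 * v 0 0 := by
  intro N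
  induction N with
  | zero =>
    intro v _ hn t
    have := hn 0 0 rfl
    simp only [Nat.cast_zero, zero_mul, zero_add]
    positivity
  | succ N ih =>
    intro v hv hn t
    have h1 := ih (fun i j => v (i + 1) j)
      (fun i j hij => hv (i + 1) j (by omega)) (fun i j hij => hn (i + 1) j (by omega)) t
    have h2 := ih (fun i j => v i (j + 1))
      (fun i j hij => hv i (j + 1) (by omega)) (fun i j hij => hn i (j + 1) (by omega)) (t - 1)
    have e0 : v 0 0 = v 1 0 + v 0 1 := hv 0 0 (by omega)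
    have e1 : (N : ℝ) * v 0 1 = N * (v 1 1 + v 0 2) := by
      rcases Nat.eq_zero_or_pos N with rfl | h
      · simp
      · rw [hv 0 1 (by omega)]
    have e2 : (N : ℝ) * (N - 1) * v 0 2 = N * (N - 1) * (v 1 2 + v 0 3) := by
      rcases Nat.eq_zero_or_pos N with rfl | h
      · simp
      · rcases Nat.eq_or_lt_of_le (Nat.succ_le_of_lt h) with h' | h'
        · have : N = 1 := by omega
          subst this
          simp
        · rw [hv 0 2 (by omega)]
    simp only [Nat.zero_add, Nat.reduceAdd] at h1 h2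
    push_cast
    have key : ((N : ℝ) + 1) * (N + 1 - 1) * v 0 2 + (N + 1) * (1 - 2 * t) * v 0 1 + t ^ 2 * v 0 0
        = ((N : ℝ) * (N - 1) * v 1 2 + N * (1 - 2 * t) * v 1 1 + t ^ 2 * v 1 0)
          + (N * (N - 1) * v 0 3 + N * (1 - 2 * (t - 1)) * v 0 2 + (t - 1) ^ 2 * v 0 1) := by
      rw [e0]
      linear_combination e2 + (1 - 2 * t) * e1
    rw [key]
    exact add_nonneg h1 h2

/-- Archimedean consequence. -/
theorem sq_le_of_mom {c0 c1 c2 : ℝ} (h0 : 0 < c0)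
    (h : ∀ N : ℕ, 2 ≤ N → ∀ t : ℝ,
      0 ≤ (N : ℝ) * (N - 1) * c2 + N * (1 - 2 * t) * c1 + t ^ 2 * c0) :
    c1 ^ 2 ≤ c0 * c2 := by
  by_contra hlt
  push Not at hlt
  obtain ⟨N, hN⟩ := exists_nat_gt (c0 * (c1 - c2) / (c1 ^ 2 - c0 * c2))
  have hpos : 0 < c1 ^ 2 - c0 * c2 := by linarith
  have hM := h (N + 2) (by omega) (((N + 2 : ℕ) : ℝ) * c1 / c0)
  set M : ℝ := ((N + 2 : ℕ) : ℝ) with hMdef
  have hMpos : 0 < M := by rw [hMdef]; positivity
  have hMN : (N : ℝ) < M := by rw [hMdef]; push_cast; linarith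
  have e : c0 * (M * (M - 1) * c2 + M * (1 - 2 * (M * c1 / c0)) * c1 + (M * c1 / c0) ^ 2 * c0)
      = M * (c0 * (c1 - c2) - M * (c1 ^ 2 - c0 * c2)) := by
    field_simp
    ring
  have h3 : 0 ≤ M * (c0 * (c1 - c2) - M * (c1 ^ 2 - c0 * c2)) := by
    rw [← e]; exact mul_nonneg h0.le hM
  have h4 : 0 ≤ c0 * (c1 - c2) - M * (c1 ^ 2 - c0 * c2) := by
    by_contra hneg
    push Not at hneg
    have := mul_neg_of_pos_of_neg hMpos hneg
    linarith
  rw [div_lt_iff₀ hpos] at hN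
  nlinarith

end Pool.Agent.Y299.Forti
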