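import Pool.Agent.Y299.Forti.LemmaE

/-! # Types I, II and III -/

namespace Pool.Agent.Y299.Forti

open Set

theorem small_iter {q : ℝ → ℝ} (hq : Continuous q) (h : ∀ y, y ≠ 0 → |q y| < |y|) (x : ℝ)
    {ε : ℝ} (hε : 0 < ε) : ∃ n : ℕ, |q^[n] x| < ε := by
  by_contra hcon
  push Not at hcon
  have hne : ∀ n : ℕ, q^[n] x ≠ 0 := by
    intro n h0
    have := hcon n
    rw [h0, abs_zero] at this
    linarith
  have hle : ∀ n : ℕ, |q^[n] x| ≤ |x| := by
    intro n
    induction n with
    | zero => exact le_rfl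
    | succ n ih =>
      rw [Function.iterate_succ_apply']
      exact (h _ (hne n)).le.trans ih
  have hKc : IsCompact {y : ℝ | ε ≤ |y| ∧ |y| ≤ |x|} := by
    apply Metric.isCompact_of_isClosed_isBounded
    · exact (isClosed_le continuous_const continuous_abs).inter
        (isClosed_le continuous_abs continuous_const)
    · apply (Metric.isBounded_closedBall (x := (0 : ℝ)) (r := |x|)).subset
      intro y hy
      rw [Metric.mem_closedBall, dist_zero_right, Real.norm_eq_abs]
      exact hy.2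
  have hKne : ({y : ℝ | ε ≤ |y| ∧ |y| ≤ |x|}).Nonempty := ⟨x, hcon 0, le_rfl⟩
  obtain ⟨x₀, hx₀, hmin⟩ := hKc.exists_isMinOn hKne (f := fun y => |y| - |q y|) (by fun_prop)
  have hx₀ne : x₀ ≠ 0 := by
    intro h0
    rw [h0] at hx₀
    have h1 : ε ≤ |(0 : ℝ)| := hx₀.1
    rw [abs_zero] at h1
    linarith
  have hc : 0 < |x₀| - |q x₀| := sub_pos.2 (h _ hx₀ne)
  have hlin : ∀ n : ℕ, |q^[n] x| ≤ |x| - n * (|x₀| - |q x₀|) := by
    intro n
    induction n with
    | zero => simp
    | succ n ih =>
      rw [Function.iterate_succ_apply']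
      have h1 : |x₀| - |q x₀| ≤ |q^[n] x| - |q (q^[n] x)| := hmin ⟨hcon n, hle n⟩
      push_cast
      linarith
  obtain ⟨n, hn⟩ := exists_nat_gt (|x| / (|x₀| - |q x₀|))
  rw [div_lt_iff₀ hc] at hn
  linarith [hlin n, hcon n]

section TypeII

variable {f : ℝ → ℝ} (hf : Continuous f) (he : ∀ x, f (x + f x) = f x + f (f x))
  (hs : ∀ x, x ≠ 0 → x * f x < 0) (hg : ∀ x, x ≠ 0 → 0 < x * (x + f x))

include he in
theorem f_zero : f 0 = 0 := by
  have := he 0
  rw [zero_add] at this
  linarith

include he hs hg in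
theorem II_abs (x : ℝ) : |x| = |f x| + |x + f x| := by
  rcases eq_or_ne x 0 with rfl | hx
  · simp [f_zero he]
  have h1 := hs x hx
  have h2 := hg x hx
  rcases lt_or_gt_of_ne hx with h0 | h0
  · have hk : 0 < f x := by
      by_contra hc
      push Not at hc
      nlinarith
    have hk2 : x + f x < 0 := by
      by_contra hc
      push Not at hc
      nlinarith
    rw [abs_of_neg h0, abs_of_pos hk, abs_of_neg hk2]
    ring
  · have hk : f x < 0 := by
      by_contra hc
      push Not at hc
      nlinarith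
    have hk2 : 0 < x + f x := by
      by_contra hc
      push Not at hc
      nlinarith
    rw [abs_of_pos h0, abs_of_neg hk, abs_of_pos hk2]
    ring

theorem comm_fg (he : ∀ x, f (x + f x) = f x + f (f x)) :
    Function.Commute f (fun x => x + f x) := fun x => he x

include he hs hg in
theorem II_g_sq (x : ℝ) : |x + f x| ^ 2 ≤ |x| * |(x + f x) + f (x + f x)| := by
  rcases eq_or_ne x 0 with rfl | hx
  · simp [f_zero he]
  set g : ℝ → ℝ := fun x => x + f x with hgdef
  have hc : Function.Commute f g := comm_fg he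
  have hrec : ∀ i j : ℕ, |f^[i] (g^[j] x)| = |f^[i + 1] (g^[j] x)| + |f^[i] (g^[j + 1] x)| := by
    intro i j
    have h1 := II_abs he hs hg (f^[i] (g^[j] x))
    have h2 : f^[i] (g^[j] x) + f (f^[i] (g^[j] x)) = f^[i] (g^[j + 1] x) := by
      rw [Function.iterate_succ_apply', (hc.iterate_left i).eq]
    rw [h2] at h1
    rw [Function.iterate_succ_apply']
    exact h1
  have h := sq_le_of_mom (c0 := |x|) (c1 := |x + f x|) (c2 := |(x + f x) + f (x + f x)|)
    (abs_pos.2 hx) (fun N _ t => ?_)
  · exact h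
  · exact mom_nonneg N (fun i j => |f^[i] (g^[j] x)|) (fun i j _ => hrec i j)
      (fun i j _ => abs_nonneg _) t

include he hs hg in
theorem II_f_sq (x : ℝ) : |f x| ^ 2 ≤ |x| * |f (f x)| := by
  rcases eq_or_ne x 0 with rfl | hx
  · simp [f_zero he]
  set g : ℝ → ℝ := fun x => x + f x with hgdef
  have hc : Function.Commute f g := comm_fg he
  have hrec : ∀ i j : ℕ, |g^[i] (f^[j] x)| = |g^[i + 1] (f^[j] x)| + |g^[i] (f^[j + 1] x)| := by
    intro i j
    have h1 := II_abs he hs hg (g^[i] (f^[j] x))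
    have h2 : f (g^[i] (f^[j] x)) = g^[i] (f^[j + 1] x) := by
      rw [Function.iterate_succ_apply', (hc.iterate_right i).eq]
    have h3 : g^[i] (f^[j] x) + f (g^[i] (f^[j] x)) = g^[i + 1] (f^[j] x) := by
      rw [Function.iterate_succ_apply']
    rw [h3, h2] at h1
    linarith
  have h := sq_le_of_mom (c0 := |x|) (c1 := |f x|) (c2 := |f (f x)|)
    (abs_pos.2 hx) (fun N _ t => ?_)
  · exact h
  · exact mom_nonneg N (fun i j => |g^[i] (f^[j] x)|) (fun i j _ => hrec i j)
      (fun i j _ => abs_nonneg _) t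

/-- The ratio `|g x| / |x|`. -/
noncomputable def H (f : ℝ → ℝ) (x : ℝ) : ℝ := |x + f x| / |x|

include hs in
theorem II_f_ne {x : ℝ} (hx : x ≠ 0) : f x ≠ 0 := by
  intro h
  have := hs x hx
  rw [h, mul_zero] at this
  exact lt_irrefl _ this

include hg in
theorem II_g_ne {x : ℝ} (hx : x ≠ 0) : x + f x ≠ 0 := by
  intro h
  have := hg x hx
  rw [h, mul_zero] at this
  exact lt_irrefl _ this

include hg in
theorem H_pos {x : ℝ} (hx : x ≠ 0) : 0 < H f x :=
  div_pos (abs_pos.2 (II_g_ne hg hx)) (abs_pos.2 hx)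

include he hs hg in
theorem H_le_g {x : ℝ} (hx : x ≠ 0) : H f x ≤ H f (x + f x) := by
  unfold H
  rw [div_le_div_iff₀ (abs_pos.2 hx) (abs_pos.2 (II_g_ne hg hx))]
  nlinarith [II_g_sq he hs hg x]

include he hs hg in
theorem H_f_le {x : ℝ} (hx : x ≠ 0) : H f (f x) ≤ H f x := by
  unfold H
  rw [div_le_div_iff₀ (abs_pos.2 (II_f_ne hs hx)) (abs_pos.2 hx)]
  have e1 : |f x + f (f x)| = |f x| - |f (f x)| := by linarith [II_abs he hs hg (f x)]
  have e2 : |x + f x| = |x| - |f x| := by linarith [II_abs he hs hg x]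
  rw [e1, e2]
  nlinarith [II_f_sq he hs hg x]

include he hs in
theorem II_f_abs_lt (hg : ∀ x, x ≠ 0 → 0 < x * (x + f x)) {x : ℝ} (hx : x ≠ 0) :
    |f x| < |x| := by
  have h1 := II_abs he hs hg x
  have h2 := abs_pos.2 (II_g_ne hg hx)
  linarith

include he hs hg in
theorem II_g_abs_lt {x : ℝ} (hx : x ≠ 0) : |x + f x| < |x| := by
  have h1 := II_abs he hs hg x
  have h2 := abs_pos.2 (II_f_ne hs hx)
  linarith

include hg in
theorem II_g_iter_sign (n : ℕ) {x : ℝ} (hx : x ≠ 0) :
    0 < x * (fun x => x + f x)^[n] x := by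
  induction n with
  | zero => exact mul_self_pos.2 hx
  | succ n ih =>
    rw [Function.iterate_succ_apply']
    set y := (fun x => x + f x)^[n] x with hy
    have hne : y ≠ 0 := by
      intro h0; rw [h0, mul_zero] at ih; exact lt_irrefl _ ih
    have h2 := mul_pos ih (hg y hne)
    have h3 : x * y * (y * (y + f y)) = y ^ 2 * (x * (y + f y)) := by ring
    rw [h3] at h2
    exact (pos_iff_pos_of_mul_pos h2).1 (by positivity)

include hg in
theorem II_g_iter_ne (n : ℕ) {x : ℝ} (hx : x ≠ 0) :
    (fun x => x + f x)^[n] x ≠ 0 := by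
  intro h0
  have := II_g_iter_sign hg n hx
  rw [h0, mul_zero] at this
  exact lt_irrefl _ this

include he hs hg in
/-- Upper bound on `g`-iterates. -/
theorem II_upper (n : ℕ) {x : ℝ} (hx : x ≠ 0) :
    |(fun x => x + f x)^[n] x| ≤ H f ((fun x => x + f x)^[n] x) ^ n * |x| := by
  induction n with
  | zero => simp
  | succ n ih =>
    rw [Function.iterate_succ_apply']
    set y := (fun x => x + f x)^[n] x with hy
    have hne : y ≠ 0 := II_g_iter_ne hg n hx
    have h1 : |y + f y| = H f y * |y| := by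
      unfold H; have := abs_pos.2 hne; field_simp
    have h2 := H_le_g he hs hg hne
    have h3 := H_pos hg hne
    calc |y + f y| = H f y * |y| := h1
      _ ≤ H f y * (H f y ^ n * |x|) := by gcongr
      _ = H f y ^ (n + 1) * |x| := by ring
      _ ≤ H f (y + f y) ^ (n + 1) * |x| := by gcongr

include he hs hg in
/-- Lower bound on `g`-iterates. -/
theorem II_lower (n : ℕ) {x : ℝ} (hx : x ≠ 0) :
    H f x ^ n * |x| ≤ |(fun x => x + f x)^[n] x| ∧ H f x ≤ H f ((fun x => x + f x)^[n] x) := by
  induction n with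
  | zero => simp
  | succ n ih =>
    rw [Function.iterate_succ_apply']
    set y := (fun x => x + f x)^[n] x with hy
    have hne : y ≠ 0 := II_g_iter_ne hg n hx
    have h1 : |y + f y| = H f y * |y| := by
      unfold H; have := abs_pos.2 hne; field_simp
    have h2 := H_le_g he hs hg hne
    have h3 := H_pos hg hx
    have h4 := H_pos hg hne
    refine ⟨?_, ih.2.trans h2⟩
    calc H f x ^ (n + 1) * |x| = H f x * (H f x ^ n * |x|) := by ring
      _ ≤ H f y * |y| := mul_le_mul ih.2 ih.1 (by positivity) h4.le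
      _ = |y + f y| := h1.symm

include hf he in
/-- Pull back through iterates of `g`. -/
theorem II_pull (n : ℕ) (z b : ℝ) (h : z ∈ uIcc 0 ((fun x => x + f x)^[n] b)) :
    ∃ z₀ ∈ uIcc 0 b, (fun x => x + f x)^[n] z₀ = z := by
  have hc : ContinuousOn ((fun x => x + f x)^[n]) (uIcc 0 b) := by
    apply Continuous.continuousOn
    exact Continuous.iterate (by fun_prop) n
  have h0 : (fun x => x + f x)^[n] 0 = 0 := by
    have : Function.IsFixedPt (fun x => x + f x) 0 := by
      show (0 : ℝ) + f 0 = 0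
      rw [f_zero he, add_zero]
    exact this.iterate n
  have := intermediate_value_uIcc hc
  rw [h0] at this
  obtain ⟨z₀, h1, h2⟩ := this h
  exact ⟨z₀, h1, h2⟩

include hf he hs hg in
theorem II_not_lt {x b : ℝ} (hx : x ≠ 0) (hb : b ≠ 0) (hxb : 0 < x * b) : ¬ H f x < H f b := by
  intro hlt
  set g : ℝ → ℝ := fun x => x + f x with hgdef
  have hgc : Continuous g := by fun_prop
  -- f^[2n] x properties
  have hfit : ∀ n : ℕ, (f ∘ f)^[n] x ≠ 0 ∧ 0 < x * (f ∘ f)^[n] x ∧
      H f ((f ∘ f)^[n] x) ≤ H f x := by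
    intro n
    induction n with
    | zero => exact ⟨hx, mul_self_pos.2 hx, le_rfl⟩
    | succ n ih =>
      rw [Function.iterate_succ_apply']
      simp only [Function.comp_apply]
      obtain ⟨i1, i2, i3⟩ := ih
      set y := (f ∘ f)^[n] x with hy
      have j1 := II_f_ne hs i1
      have j2 := II_f_ne hs j1
      refine ⟨j2, ?_, ((H_f_le he hs hg j1).trans (H_f_le he hs hg i1)).trans i3⟩
      have h1 := mul_pos_of_neg_of_neg (hs y i1) (hs (f y) j1)
      have h2 := mul_pos i2 h1
      have h3 : x * y * (y * f y * (f y * f (f y))) = (y * f y) ^ 2 * (x * f (f y)) := by ring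
      rw [h3] at h2
      exact (pos_iff_pos_of_mul_pos h2).1 (by positivity)
  have hHx := H_pos hg hx
  have hHb := H_pos hg hb
  -- exponent
  have hr : 1 < H f b / H f x := by rwa [one_lt_div hHx]
  obtain ⟨K, hK⟩ := pow_unbounded_of_one_lt (1 / H f b) hr
  have hgKb : 0 < |g^[K] b| := abs_pos.2 (II_g_iter_ne hg K hb)
  obtain ⟨n, hn⟩ := small_iter (q := f ∘ f) (hf.comp hf) (fun y hy => by
    have h1 := II_f_abs_lt he hs hg hy
    have h2 := II_f_abs_lt he hs hg (II_f_ne hs hy)
    exact h2.trans h1) x hgKb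
  obtain ⟨hz0, hzx, hzH⟩ := hfit n
  set z := (f ∘ f)^[n] x with hz
  -- maximal k
  have hex : ∃ m : ℕ, |g^[m] b| < |z| :=
    small_iter hgc (fun y hy => II_g_abs_lt he hs hg hy) b (abs_pos.2 hz0)
  classical
  have hspec := Nat.find_spec hex
  have hmin : ∀ m < Nat.find hex, |z| ≤ |g^[m] b| := fun m hm => not_lt.1 (Nat.find_min hex hm)
  set M := Nat.find hex with hM
  have hanti : ∀ m m' : ℕ, m ≤ m' → |g^[m'] b| ≤ |g^[m] b| := by
    intro m m' hmm
    induction m', hmm using Nat.le_induction with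
    | base => exact le_rfl
    | succ m' _ ih =>
      rw [Function.iterate_succ_apply']
      exact (II_g_abs_lt he hs hg (II_g_iter_ne hg m' hb)).le.trans ih
  have hKM : K < M := by
    by_contra hcon
    push Not at hcon
    have := hanti _ _ hcon
    linarith
  obtain ⟨k, hk⟩ : ∃ k, M = k + 1 := ⟨M - 1, by omega⟩
  have hKk : K ≤ k := by omega
  have h1 : |z| ≤ |g^[k] b| := hmin k (by omega)
  have h2 : |g^[k + 1] b| < |z| := by rw [← hk]; exact hspec
  -- trap
  have hzb : 0 < z * g^[k] b := by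
    have i1 := II_g_iter_sign hg k hb
    have i2 := mul_pos (mul_pos hzx hxb) i1
    have i3 : x * z * (x * b) * (b * g^[k] b) = (x * b) ^ 2 * (z * g^[k] b) := by ring
    rw [i3] at i2
    exact (pos_iff_pos_of_mul_pos i2).1 (by positivity)
  obtain ⟨z₀, hz₀, hgz₀⟩ := II_pull hf he k z b (mem_uIcc_zero hzb h1)
  have hz₀ne : z₀ ≠ 0 := by
    rintro rfl
    have : (fun x => x + f x)^[k] 0 = 0 := by
      have : Function.IsFixedPt (fun x => x + f x) 0 := by
        show (0 : ℝ) + f 0 = 0
        rw [f_zero he, add_zero]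
      exact this.iterate k
    rw [this] at hgz₀
    exact hz0 hgz₀.symm
  have hz₀abs : |z₀| ≤ |b| := by
    have := abs_sub_left_of_mem_uIcc hz₀
    simpa using this
  have h3 := II_upper he hs hg k hz₀ne
  rw [hgz₀] at h3
  have h4 := (II_lower he hs hg (k + 1) hb).1
  have hbpos := abs_pos.2 hb
  have hHz := H_pos hg hz0
  have h5 : |z| ≤ H f x ^ k * |b| := by
    calc |z| ≤ H f z ^ k * |z₀| := h3
      _ ≤ H f x ^ k * |b| := by gcongr
  have h6 : H f b ^ (k + 1) * |b| < H f x ^ k * |b| := by linarith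
  have h7 : H f b ^ (k + 1) < H f x ^ k := lt_of_mul_lt_mul_right h6 hbpos.le
  have h8 : (1 / H f b) < (H f b / H f x) ^ k :=
    hK.trans_le (pow_le_pow_right₀ hr.le hKk)
  rw [div_pow, div_lt_div_iff₀ hHb (by positivity)] at h8
  rw [pow_succ] at h7
  linarith

include hf he hs hg in
/-- **Type II**: linear. -/
theorem typeII : ∃ c : ℝ, ∀ x, f x = c * x := by
  have hall : ∀ x b : ℝ, x ≠ 0 → b ≠ 0 → ¬ H f x < H f b := by
    intro x b hx hb hlt
    rcases lt_or_gt_of_ne (mul_ne_zero hx hb) with h | h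
    · have h1 := II_f_ne hs hx
      refine II_not_lt hf he hs hg h1 hb ?_ ((H_f_le he hs hg hx).trans_lt hlt)
      have h2 := mul_pos_of_neg_of_neg (hs x hx) h
      have h3 : x * f x * (x * b) = x ^ 2 * (f x * b) := by ring
      rw [h3] at h2
      exact (pos_iff_pos_of_mul_pos h2).1 (by positivity)
    · exact II_not_lt hf he hs hg hx hb h hlt
  refine ⟨H f 1 - 1, fun x => ?_⟩
  rcases eq_or_ne x 0 with rfl | hx
  · rw [f_zero he, mul_zero]
  · have h1 : H f x = H f 1 :=
      le_antisymm (not_lt.1 (hall 1 x one_ne_zero hx)) (not_lt.1 (hall x 1 hx one_ne_zero))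
    have h2 : |x + f x| = H f x * |x| := by
      unfold H; have := abs_pos.2 hx; field_simp
    have h3 := hg x hx
    rw [h1] at h2
    rcases lt_or_gt_of_ne hx with h0 | h0
    · have hk2 : x + f x < 0 := by
        by_contra hc
        push Not at hc
        nlinarith
      rw [abs_of_neg h0, abs_of_neg hk2] at h2
      linarith
    · have hk2 : 0 < x + f x := by
        by_contra hc
        push Not at hc
        nlinarith
      rw [abs_of_pos h0, abs_of_pos hk2] at h2
      linarith

end TypeII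

/-- **Type I**: positive on the positive axis. -/
theorem typeI {f : ℝ → ℝ} (hf : Continuous f) (he : ∀ x, f (x + f x) = f x + f (f x))
    (hp : ∀ x, 0 < x → 0 < f x) : ∃ a : ℝ, 0 < a ∧ ∀ x, 0 ≤ x → f x = a * x := by
  have h0 := f_zero he
  set k : ℝ → ℝ := fun x => f (max (-x) 0) - f (max x 0) with hk
  have hkc : Continuous k := by fun_prop
  have kpos : ∀ x, 0 ≤ x → k x = -f x := by
    intro x hx
    rw [hk]
    simp only
    rw [max_eq_right (by linarith : -x ≤ 0), max_eq_left hx, h0]
    ring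
  have kneg : ∀ x, x ≤ 0 → k x = f (-x) := by
    intro x hx
    rw [hk]
    simp only
    rw [max_eq_left (by linarith : 0 ≤ -x), max_eq_right hx, h0]
    ring
  have fnn : ∀ x, 0 ≤ x → 0 ≤ f x := by
    intro x hx
    rcases eq_or_lt_of_le hx with rfl | h
    · rw [h0]
    · exact (hp x h).le
  obtain ⟨m, hm, hkm⟩ := lemmaE hkc (fun x hx => by
    rcases lt_or_gt_of_ne hx with h | h
    · rw [kneg x h.le]
      exact mul_neg_of_neg_of_pos h (hp _ (by linarith))
    · rw [kpos x h.le]
      have := hp x h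
      nlinarith) (fun x => by
    rcases le_total 0 x with h | h
    · have h1 := fnn x h
      rw [kpos x h, kneg (-f x) (by linarith), kneg (-f x - x) (by linarith)]
      have := he x
      rw [neg_neg]
      rw [show -(-f x - x) = x + f x by ring, this]
      ring
    · have h1 := fnn (-x) (by linarith)
      rw [kneg x h, kpos (f (-x)) h1, kpos (f (-x) - x) (by linarith)]
      have := he (-x)
      rw [show f (-x) - x = -x + f (-x) by ring, this]
      ring)
  refine ⟨m, hm, fun x hx => ?_⟩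
  have := hkm x
  rw [kpos x hx] at this
  linarith

/-- **Type III**. -/
theorem typeIII {f : ℝ → ℝ} (hf : Continuous f) (he : ∀ x, f (x + f x) = f x + f (f x))
    (hg : ∀ x, x ≠ 0 → x * (x + f x) < 0) : ∃ c : ℝ, ∀ x, f x = c * x := by
  obtain ⟨m, hm, hkm⟩ := lemmaE (k := fun x => x + f x) (by fun_prop) hg (fun x => by
    have e1 : x + f x - x = f x := by ring
    rw [e1, he x]
    ring)
  refine ⟨-m - 1, fun x => ?_⟩
  have := hkm x
  linarith

end Pool.Agent.Y299.Forti
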